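import Pool.Agent.Work.MP_41a35f_al.Thin

set_option autoImplicit false

/-!
# The triangular family
-/

namespace Pool.Agent.Nickel

/-- interleaving of two lists -/
def zipL : List ℕ → List ℕ → List ℕ
  | [], Q => Q
  | P, [] => P
  | p :: P, q :: Q => p :: q :: zipL P Q

lemma zipL_perm : ∀ P Q : List ℕ, (P ++ Q).Perm (zipL P Q)
  | [], Q => by simp [zipL]
  | p :: P, [] => by simp [zipL]
  | p :: P, q :: Q => by
    simp only [zipL, List.cons_append]
    apply List.Perm.cons
    exact List.perm_middle.trans (List.Perm.cons _ (zipL_perm P Q))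

/-- row parts -/
def rowL (w : ℕ) : ℕ → ℕ → List ℕ → List ℕ
  | s0, X, [] => [s0 - X]
  | s0, X, x :: xs => (s0 - w + x) :: rowL w (4 * s0 - 2 * w) (X + x) xs

/-- column parts -/
def colL (w : ℕ) : ℕ → ℕ → ℕ → List ℕ → List ℕ
  | s0, s, Y, [] => [3 * s0 - s + Y]
  | s0, s, Y, y :: ys =>
    (s + (s0 - w + y)) :: colL w (4 * s0 - 2 * w) (2 * (s + (s0 - w + y))) (Y + y) ys

/-- the total -/
def totL (w : ℕ) : ℕ → ℕ → ℕ
  | s0, 0 => 4 * s0
  | s0, r + 1 => totL w (4 * s0 - 2 * w) r

lemma totL_le (w : ℕ) : ∀ (r s0 : ℕ), totL w s0 r ≤ 4 ^ (r + 1) * s0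
  | 0, s0 => by simp [totL]
  | r + 1, s0 => by
    simp only [totL]
    refine (totL_le w r (4 * s0 - 2 * w)).trans ?_
    calc 4 ^ (r + 1) * (4 * s0 - 2 * w) ≤ 4 ^ (r + 1) * (4 * s0) :=
          Nat.mul_le_mul_left _ (Nat.sub_le _ _)
      _ = 4 ^ (r + 1 + 1) * s0 := by ring

/-- dominance order on lists -/
def Dom : ℕ → ℕ → List ℕ → List ℕ → Prop
  | X, Y, x :: xs, y :: ys => Y + y ≤ X + x ∧ Dom (X + x) (Y + y) xs ys
  | _, _, _, _ => True

/-- the potential -/
def Pot : ℕ → List ℕ → ℕ
  | _, [] => 0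
  | Y, y :: ys => (Y + y) + Pot (Y + y) ys

lemma pot_le : ∀ (xs ys : List ℕ) (X Y : ℕ), xs.length = ys.length → Dom X Y xs ys →
    Pot Y ys ≤ Pot X xs
  | [], [], X, Y, _, _ => by simp [Pot]
  | [], y :: ys, X, Y, h, _ => by simp at h
  | x :: xs, [], X, Y, h, _ => by simp at h
  | x :: xs, y :: ys, X, Y, h, hd => by
    simp only [Pot]
    simp only [Dom] at hd
    have := pot_le xs ys (X + x) (Y + y) (by simpa using h) hd.2
    omega

lemma eq_of_pot : ∀ (xs ys : List ℕ) (X : ℕ), xs.length = ys.length → Dom X X xs ys →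
    Pot X ys = Pot X xs → ys = xs
  | [], [], X, _, _, _ => rfl
  | [], y :: ys, X, h, _, _ => by simp at h
  | x :: xs, [], X, h, _, _ => by simp at h
  | x :: xs, y :: ys, X, h, hd, hp => by
    simp only [Pot] at hp
    simp only [Dom] at hd
    have h1 := pot_le xs ys (X + x) (X + y) (by simpa using h) hd.2
    have h2 : y = x := by omega
    subst h2
    have h3 := eq_of_pot xs ys (X + y) (by simpa using h) hd.2 (by omega)
    rw [h3]

/-- sortedness and lower bound for the parts -/
lemma zip_sorted (w : ℕ) (hw : 1 ≤ w) : ∀ (xs ys : List ℕ) (s0 s X Y : ℕ),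
    xs.length = ys.length → (∀ x ∈ xs, x < w) → (∀ y ∈ ys, y < w) → s0 ≤ s →
    2 * X + 4 * w + s ≤ 2 * s0 →
    (∀ z ∈ zipL (rowL w s0 X xs) (colL w s0 s Y ys), s < 2 * z) ∧
      (zipL (rowL w s0 X xs) (colL w s0 s Y ys)).Pairwise (· < ·)
  | [], [], s0, s, X, Y, _, _, _, h2, h3 => by
    simp only [rowL, colL, zipL]
    constructor
    · intro z hz
      simp only [List.mem_cons, List.not_mem_nil, or_false] at hz
      omega
    · simp only [List.pairwise_cons, List.mem_cons, List.not_mem_nil, or_false, forall_eq,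
        List.Pairwise.nil, and_true, IsEmpty.forall_iff, implies_true]
      omega
  | [], y :: ys, s0, s, X, Y, h, _, _, _, _ => by simp at h
  | x :: xs, [], s0, s, X, Y, h, _, _, _, _ => by simp at h
  | x :: xs, y :: ys, s0, s, X, Y, h, hx, hy, h2, h3 => by
    have hx1 := hx x (by simp)
    have hy1 := hy y (by simp)
    have ih := zip_sorted w hw xs ys (4 * s0 - 2 * w) (2 * (s + (s0 - w + y))) (X + x) (Y + y)
      (by simpa using h) (fun z hz => hx z (by simp [hz])) (fun z hz => hy z (by simp [hz]))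
      (by omega) (by omega)
    simp only [rowL, colL, zipL]
    constructor
    · intro z hz
      simp only [List.mem_cons] at hz
      rcases hz with hz | hz | hz
      · omega
      · omega
      · have := ih.1 z hz
        omega
    · simp only [List.pairwise_cons, List.mem_cons]
      refine ⟨?_, ?_, ih.2⟩
      · rintro z (hz | hz)
        · omega
        · have := ih.1 z hz
          omega
      · intro z hz
        have := ih.1 z hz
        omega

/-- the total sum -/
lemma zip_sum (w : ℕ) (hw : 1 ≤ w) : ∀ (xs ys : List ℕ) (s0 s X Y S : ℕ),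
    xs.length = ys.length → (∀ x ∈ xs, x < w) → (∀ y ∈ ys, y < w) → s0 ≤ s →
    2 * X + 4 * w + s ≤ 2 * s0 → S + Y = s + X →
    S + (zipL (rowL w s0 X xs) (colL w s0 s Y ys)).sum = totL w s0 xs.length
  | [], [], s0, s, X, Y, S, _, _, _, h2, h3, h4 => by
    simp only [rowL, colL, zipL, totL, List.sum_cons, List.sum_nil, List.length_nil]
    omega
  | [], y :: ys, s0, s, X, Y, S, h, _, _, _, _, _ => by simp at h
  | x :: xs, [], s0, s, X, Y, S, h, _, _, _, _, _ => by simp at h
  | x :: xs, y :: ys, s0, s, X, Y, S, h, hx, hy, h2, h3, h4 => by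
    have hx1 := hx x (by simp)
    have hy1 := hy y (by simp)
    have ih := zip_sum w hw xs ys (4 * s0 - 2 * w) (2 * (s + (s0 - w + y))) (X + x) (Y + y)
      (S + (s0 - w + x) + (s + (s0 - w + y)))
      (by simpa using h) (fun z hz => hx z (by simp [hz])) (fun z hz => hy z (by simp [hz]))
      (by omega) (by omega) (by omega)
    simp only [rowL, colL, zipL, totL, List.sum_cons, List.length_cons]
    omega

/-- legitimacy implies dominance -/
lemma dom_of_legit (w : ℕ) (hw : 1 ≤ w) : ∀ (xs ys : List ℕ) (s0 s X Y S : ℕ),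
    xs.length = ys.length → (∀ x ∈ xs, x < w) → (∀ y ∈ ys, y < w) → s0 ≤ s →
    2 * X + 4 * w + s ≤ 2 * s0 → S + Y = s + X →
    Legit S (zipL (rowL w s0 X xs) (colL w s0 s Y ys)) → Dom X Y xs ys
  | [], [], s0, s, X, Y, S, _, _, _, h2, h3, h4, _ => by simp [Dom]
  | [], y :: ys, s0, s, X, Y, S, h, _, _, _, _, _, _ => by simp at h
  | x :: xs, [], s0, s, X, Y, S, h, _, _, _, _, _, _ => by simp at h
  | x :: xs, y :: ys, s0, s, X, Y, S, h, hx, hy, h2, h3, h4, hL => by
    have hx1 := hx x (by simp)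
    have hy1 := hy y (by simp)
    simp only [rowL, colL, zipL, Legit] at hL
    simp only [Dom]
    refine ⟨by omega, ?_⟩
    exact dom_of_legit w hw xs ys (4 * s0 - 2 * w) (2 * (s + (s0 - w + y))) (X + x) (Y + y)
      (S + (s0 - w + x) + (s + (s0 - w + y)))
      (by simpa using h) (fun z hz => hx z (by simp [hz])) (fun z hz => hy z (by simp [hz]))
      (by omega) (by omega) (by omega) hL.2.2

/-- the diagonal is legitimate -/
lemma legit_diag (w : ℕ) (hw : 1 ≤ w) : ∀ (xs : List ℕ) (s0 s X : ℕ),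
    (∀ x ∈ xs, x < w) → s0 + X ≤ s → 2 * X + 4 * w + s ≤ 2 * s0 →
    Legit s (zipL (rowL w s0 X xs) (colL w s0 s X xs))
  | [], s0, s, X, _, h2, h3 => by
    simp only [rowL, colL, zipL, Legit]
    refine ⟨by omega, by omega, trivial⟩
  | x :: xs, s0, s, X, hx, h2, h3 => by
    have hx1 := hx x (by simp)
    simp only [rowL, colL, zipL, Legit]
    refine ⟨by omega, by omega, ?_⟩
    have ih := legit_diag w hw xs (4 * s0 - 2 * w) (2 * (s + (s0 - w + x))) (X + x)
      (fun z hz => hx z (by simp [hz])) (by omega) (by omega)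
    have e : s + (s0 - w + x) + (s + (s0 - w + x)) = 2 * (s + (s0 - w + x)) := by ring
    rw [e]
    exact ih

/-- linear independence from a triangular matrix -/
lemma linInd_of_triangular {ι M : Type} [Fintype ι] [AddCommGroup M] [Module ℚ M] (F : ι → M)
    (ev : ι → M →ₗ[ℚ] ℚ) (Φ : ι → ℕ) (hd : ∀ x, ev x (F x) ≠ 0)
    (ht : ∀ x y, ev x (F y) ≠ 0 → y = x ∨ Φ y < Φ x) : LinearIndependent ℚ F := by
  rw [Fintype.linearIndependent_iff]
  intro g hg
  have main : ∀ N : ℕ, ∀ i, Φ i = N → g i = 0 := by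
    intro N
    induction N using Nat.strong_induction_on with
    | _ N ih =>
      intro i hi
      have h1 : ev i (∑ j, g j • F j) = 0 := by rw [hg, map_zero]
      rw [map_sum, Finset.sum_eq_single i] at h1
      · rw [map_smul, smul_eq_mul] at h1
        rcases mul_eq_zero.mp h1 with h | h
        · exact h
        · exact absurd h (hd i)
      · intro j _ hji
        rw [map_smul, smul_eq_mul]
        by_cases h0 : ev i (F j) = 0
        · rw [h0, mul_zero]
        · rcases ht i j h0 with h | h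
          · exact absurd h hji
          · rw [ih (Φ j) (by omega) j rfl, zero_mul]
      · intro h
        exact absurd (Finset.mem_univ i) h
  exact fun i => main _ i rfl

end Pool.Agent.Nickel
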