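import Mathlib

set_option autoImplicit false

/-!
# Basic definitions: tau-groups, Mal'cev bases, Nickel's module

All definitions follow the conventions of the problem file of MP_41a35f_al.
-/

namespace Pool.Agent.Nickel

/-- A tau-group: a finitely generated torsion-free nilpotent group. -/
structure IsTauGroup (G : Type) [Group G] : Prop where
  fg : Group.FG G
  torsionFree : ∀ g : G, g ≠ 1 → ∀ k : ℕ, 0 < k → g ^ k ≠ 1
  nilpotent : Group.IsNilpotent G

section

variable {G : Type} [Group G] {n : ℕ}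

/-- The ordered product `a_0 ^ x_0 * a_1 ^ x_1 * ⋯ * a_{n-1} ^ x_{n-1}`. -/
def orderedProd (a : Fin n → G) (x : Fin n → ℤ) : G :=
  (List.ofFn fun i => a i ^ x i).prod

/-- The subgroup `⟨a_i, a_{i+1}, …, a_{n-1}⟩` (it is trivial for `i = n`). -/
def tailSubgroup (a : Fin n → G) (i : ℕ) : Subgroup G :=
  Subgroup.closure {g | ∃ j : Fin n, i ≤ (j : ℕ) ∧ a j = g}

/-- `a` is a Mal'cev basis of `G`: every element has exactly one expression
`a_0 ^ x_0 ⋯ a_{n-1} ^ x_{n-1}` with integer exponents, and the subgroups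
`G_i = ⟨a_i, …, a_{n-1}⟩` form a central series `G = G_0 > G_1 > ⋯ > G_{n-1} > G_n = 1`. -/
structure IsMalcevBasis (a : Fin n → G) : Prop where
  bij : Function.Bijective (orderedProd a)
  top : tailSubgroup a 0 = ⊤
  central : ∀ i : ℕ, ⁅(⊤ : Subgroup G), tailSubgroup a i⁆ ≤ tailSubgroup a (i + 1)
  strict : ∀ i : ℕ, i < n → tailSubgroup a (i + 1) < tailSubgroup a i

/-- The coordinates of `g` with respect to `a`: for a Mal'cev basis `a` this is the unique
exponent vector `x` with `g = a_0 ^ x_0 ⋯ a_{n-1} ^ x_{n-1}`. -/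
noncomputable def coord (a : Fin n → G) (g : G) : Fin n → ℤ :=
  Function.invFun (orderedProd a) g

/-- The `ℚ`-space `M(a)`: the span, inside the space of all functions `G → ℚ`, of all
translates `t_i ^ g : h ↦ t_i (h * g⁻¹)` of the coordinate functions `t_i`. -/
def nickelModule (a : Fin n → G) : Submodule ℚ (G → ℚ) :=
  Submodule.span ℚ {f | ∃ (i : Fin n) (g : G), f = fun h => ((coord a (h * g⁻¹) i : ℤ) : ℚ)}

/-- `N(a) = dim_ℚ M(a)`, the size of Nickel's representation for the Mal'cev basis `a`. -/
noncomputable def nickelSize (a : Fin n → G) : ℕ :=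
  Module.finrank ℚ (nickelModule a)

end

end Pool.Agent.Nickel
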