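import Pool.Agent.Work.MP_41a35f_al.Quot

set_option autoImplicit false

/-!
# The truncated loop groups have Mal'cev bases
-/

open scoped commutatorElement
open PowerSeries

namespace Pool.Agent.Nickel

open SLX

/-- Mal'cev bases of a subgroup, relative to the ambient group -/
structure RelMB {G : Type} [Group G] (K : Subgroup G) {n : ℕ} (a : Fin n → G) : Prop where
  mem : ∀ x, orderedProd a x ∈ K
  inj : Function.Injective (orderedProd a)
  surj : ∀ g ∈ K, ∃ x, orderedProd a x = g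
  top : tailSubgroup a 0 = K
  central : ∀ i, ⁅(⊤ : Subgroup G), tailSubgroup a i⁆ ≤ tailSubgroup a (i + 1)
  strict : ∀ i < n, tailSubgroup a (i + 1) < tailSubgroup a i

lemma orderedProd_cons {G : Type} [Group G] {n : ℕ} (a0 : G) (a : Fin n → G)
    (x : Fin (n + 1) → ℤ) :
    orderedProd (Fin.cons a0 a : Fin (n + 1) → G) x =
      a0 ^ (x 0) * orderedProd a (fun i => x i.succ) := by
  unfold orderedProd
  rw [List.ofFn_succ, List.prod_cons]
  simp

lemma tail_cons_succ {G : Type} [Group G] {n : ℕ} (a0 : G) (a : Fin n → G) (i : ℕ) :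
    tailSubgroup (Fin.cons a0 a : Fin (n + 1) → G) (i + 1) = tailSubgroup a i := by
  unfold tailSubgroup
  congr 1
  ext g
  constructor
  · rintro ⟨j, hj, rfl⟩
    have hj0 : j ≠ 0 := by
      rintro rfl
      simp at hj
    obtain ⟨j', rfl⟩ := Fin.exists_succ_eq.mpr hj0
    exact ⟨j', by simpa using hj, by simp⟩
  · rintro ⟨j, hj, rfl⟩
    exact ⟨j.succ, by simpa using hj, by simp⟩

lemma RelMB.cons {G : Type} [Group G] {K K' : Subgroup G} {n : ℕ} {a : Fin n → G}
    (h : RelMB K' a) (hle : K' ≤ K) (a0 : G) (ha0 : a0 ∈ K) (φ : G → ℤ)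
    (hφ : ∀ g ∈ K, ∀ g' ∈ K, φ (g * g') = φ g + φ g') (hφ0 : φ a0 = 1)
    (hker : ∀ g ∈ K, φ g = 0 ↔ g ∈ K') (hc : ∀ (g : G), ∀ k ∈ K, ⁅g, k⁆ ∈ K') :
    RelMB K (Fin.cons a0 a : Fin (n + 1) → G) := by
  have hpow : ∀ k : ℤ, φ (a0 ^ k) = k := by
    intro k
    rw [add_zpow K φ hφ ha0 k, hφ0, mul_one]
  have hdec : ∀ g ∈ K, a0 ^ (-φ g) * g ∈ K' := by
    intro g hg
    rw [← hker _ (K.mul_mem (K.zpow_mem ha0 _) hg), hφ _ (K.zpow_mem ha0 _) _ hg, hpow]
    ring
  have hK0 : tailSubgroup (Fin.cons a0 a : Fin (n + 1) → G) 0 = K := by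
    apply le_antisymm
    · unfold tailSubgroup
      rw [Subgroup.closure_le]
      rintro g ⟨j, _, rfl⟩
      refine Fin.cases ?_ ?_ j
      · simpa using ha0
      · intro i
        simp only [Fin.cons_succ]
        apply hle
        rw [← h.top]
        exact mem_tail a 0 i (by omega)
    · intro g hg
      have h1 : g = a0 ^ (φ g) * (a0 ^ (-φ g) * g) := by group
      rw [h1]
      apply Subgroup.mul_mem
      · apply Subgroup.zpow_mem
        exact mem_tail (Fin.cons a0 a : Fin (n + 1) → G) 0 0 (by omega)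
      · have h2 := hdec g hg
        rw [← h.top, ← tail_cons_succ a0 a 0] at h2
        exact tail_antitone_succ _ 0 h2
  refine ⟨?_, ?_, ?_, hK0, ?_, ?_⟩
  · intro x
    rw [orderedProd_cons]
    exact K.mul_mem (K.zpow_mem ha0 _) (hle (h.mem _))
  · intro x y hxy
    rw [orderedProd_cons, orderedProd_cons] at hxy
    have h0 : ∀ z : Fin n → ℤ, φ (orderedProd a z) = 0 := fun z =>
      (hker _ (hle (h.mem z))).mpr (h.mem z)
    have h1 := congrArg φ hxy
    rw [hφ _ (K.zpow_mem ha0 _) _ (hle (h.mem _)), hφ _ (K.zpow_mem ha0 _) _ (hle (h.mem _)),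
      h0, h0, hpow, hpow, add_zero, add_zero] at h1
    rw [h1] at hxy
    have h2 := h.inj (mul_left_cancel hxy)
    funext i
    refine Fin.cases h1 ?_ i
    intro i
    exact congrFun h2 i
  · intro g hg
    obtain ⟨x, hx⟩ := h.surj _ (hdec g hg)
    refine ⟨Fin.cons (φ g) x, ?_⟩
    rw [orderedProd_cons]
    simp only [Fin.cons_zero, Fin.cons_succ]
    rw [hx]
    group
  · intro i
    cases i with
    | zero =>
      rw [hK0, tail_cons_succ, h.top, Subgroup.commutator_le]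
      intro g _ k hk
      exact hc g k hk
    | succ i =>
      rw [tail_cons_succ, tail_cons_succ]
      exact h.central i
  · intro i hi
    cases i with
    | zero =>
      rw [hK0, tail_cons_succ, h.top]
      refine lt_of_le_of_ne hle ?_
      intro heq
      have : φ a0 = 0 := (hker a0 ha0).mpr (by rw [heq]; exact ha0)
      rw [hφ0] at this
      exact one_ne_zero this
    | succ i =>
      rw [tail_cons_succ, tail_cons_succ]
      exact h.strict i (by omega)

lemma RelMB.bot {G : Type} [Group G] : RelMB (⊥ : Subgroup G) (Fin.elim0 : Fin 0 → G) where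
  mem x := by simp [orderedProd]
  inj x y _ := Subsingleton.elim x y
  surj g hg := ⟨Fin.elim0, by rw [Subgroup.mem_bot] at hg; simp [orderedProd, hg]⟩
  top := tail_eq_bot _ 0 le_rfl
  central i := by
    rw [tail_eq_bot _ i (by omega), Subgroup.commutator_bot_right]
    exact bot_le
  strict i hi := by omega

/-! ### coefficient functions on the quotient -/

/-- coefficient of the first entry -/
noncomputable def cfA (c w : ℕ) (g : GG c) : ℤ := coeff w (A (Quotient.out g).1)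
/-- coefficient of the second entry -/
noncomputable def cfB (c w : ℕ) (g : GG c) : ℤ := coeff w (B (Quotient.out g).1)
/-- coefficient of the third entry -/
noncomputable def cfC (c w : ℕ) (g : GG c) : ℤ := coeff w (C (Quotient.out g).1)

lemma coeff_mul_high {c w : ℕ} (hw : w ≤ c) (f f' : PowerSeries ℤ)
    (h : (X : PowerSeries ℤ) ^ (c + 1) ∣ f') : coeff w (f * f') = 0 := by
  apply coeff_of_dvd
  exact ((pow_dvd_pow _ (by omega)).trans h).mul_left _

lemma out_pr {c w : ℕ} (hw : w ≤ c) (x : Gam) :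
    cfA c w (pr c x) = coeff w (A x.1) ∧ cfB c w (pr c x) = coeff w (B x.1) ∧
      cfC c w (pr c x) = coeff w (C x.1) := by
  have h1 : ∃ y : Gam, y ∈ WG (c + 1) ∧ Quotient.out (pr c x) = x * y := by
    refine ⟨x⁻¹ * Quotient.out (pr c x), ?_, by group⟩
    rw [← QuotientGroup.eq]
    exact (Quotient.out_eq (pr c x)).symm
  obtain ⟨y, hy, hout⟩ := h1
  rw [mem_WG] at hy
  obtain ⟨y1, y2, y3, y4⟩ := hy.2
  unfold cfA cfB cfC
  rw [hout]
  simp only [Subgroup.coe_mul]
  refine ⟨?_, ?_, ?_⟩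
  · have : A (x.1 * y.1) = A x.1 + (A x.1 * (A y.1 - 1) + B x.1 * C y.1) := by
      rw [A_mul]; ring
    rw [this, map_add, map_add, coeff_mul_high hw _ _ y1, coeff_mul_high hw _ _ y3]
    ring
  · have : B (x.1 * y.1) = B x.1 + (A x.1 * B y.1 + B x.1 * (E y.1 - 1)) := by
      rw [B_mul]; ring
    rw [this, map_add, map_add, coeff_mul_high hw _ _ y2, coeff_mul_high hw _ _ y4]
    ring
  · have : C (x.1 * y.1) = C x.1 + (C x.1 * (A y.1 - 1) + E x.1 * C y.1) := by
      rw [C_mul]; ring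
    rw [this, map_add, map_add, coeff_mul_high hw _ _ y1, coeff_mul_high hw _ _ y3]
    ring

lemma cf_mul {c w : ℕ} (h1 : 1 ≤ w) (hw : w ≤ c) {g g' : GG c} (hg : g ∈ VV c w)
    (hg' : g' ∈ VV c w) :
    cfA c w (g * g') = cfA c w g + cfA c w g' ∧ cfB c w (g * g') = cfB c w g + cfB c w g' ∧
      cfC c w (g * g') = cfC c w g + cfC c w g' := by
  obtain ⟨x, hx, rfl⟩ := mem_VV' hg
  obtain ⟨y, hy, rfl⟩ := mem_VV' hg'
  rw [← map_mul]
  obtain ⟨a1, b1, c1⟩ := out_pr hw x
  obtain ⟨a2, b2, c2⟩ := out_pr hw y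
  obtain ⟨a3, b3, c3⟩ := out_pr hw (x * y)
  rw [a1, b1, c1, a2, b2, c2, a3, b3, c3]
  exact ⟨cA_mul h1 hx.2 hy.2, cB_mul h1 hx.2 hy.2, cC_mul h1 hx.2 hy.2⟩

lemma mem_VV_succ_iff {c w : ℕ} (h1 : 1 ≤ w) (hw : w ≤ c) {g : GG c} (hg : g ∈ VV c w) :
    g ∈ VV c (w + 1) ↔ cfA c w g = 0 ∧ cfB c w g = 0 ∧ cfC c w g = 0 := by
  obtain ⟨x, hx, rfl⟩ := mem_VV' hg
  obtain ⟨a1, b1, c1⟩ := out_pr hw x
  rw [a1, b1, c1, mem_VV (by omega)]
  constructor
  · intro h; exact coeff_of_mem_succ h1 h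
  · rintro ⟨h2, h3, h4⟩; exact mem_succ h1 hx h2 h3 h4

lemma cfA_odd {c w : ℕ} (hw : w ≤ c) (hod : Odd w) {g : GG c} : cfA c w g = 0 := by
  obtain ⟨x, rfl⟩ := pr_surj c g
  rw [(out_pr hw x).1]
  exact odd_coeff_A x.2.1 hod

lemma cfB_even {c w : ℕ} (hw : w ≤ c) (hev : Even w) {g : GG c} : cfB c w g = 0 := by
  obtain ⟨x, rfl⟩ := pr_surj c g
  rw [(out_pr hw x).2.1]
  exact even_coeff_B x.2.1 hev

lemma cfC_even {c w : ℕ} (hw : w ≤ c) (hev : Even w) {g : GG c} : cfC c w g = 0 := by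
  obtain ⟨x, rfl⟩ := pr_surj c g
  rw [(out_pr hw x).2.2]
  exact even_coeff_C x.2.1 hev

lemma comm_VV {c w : ℕ} (g : GG c) {k : GG c} (hk : k ∈ VV c w) : ⁅g, k⁆ ∈ VV c (w + 1) := by
  have h1 := (thin_GG c).comm 1 w g k ((thin_GG c).top_mem g) hk
  have h2 : 1 + w = w + 1 := Nat.add_comm 1 w
  exact h2 ▸ h1

lemma exists_relMB (c : ℕ) : ∀ d w, w + d = c + 1 → 1 ≤ w →
    ∃ (n : ℕ) (a : Fin n → GG c), RelMB (VV c w) a := by
  intro d
  induction d with
  | zero =>
    intro w hw _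
    obtain rfl : w = c + 1 := by omega
    exact ⟨0, Fin.elim0, by rw [(thin_GG c).bot]; exact RelMB.bot⟩
  | succ d ih =>
    intro w hw h1
    have hwc : w ≤ c := by omega
    obtain ⟨n, a, ha⟩ := ih (w + 1) (by omega) (by omega)
    have hanti : VV c (w + 1) ≤ VV c w := (thin_GG c).anti (Nat.le_succ w)
    rcases Nat.even_or_odd' w with ⟨p, hp | hp⟩
    · have hev : Even w := ⟨p, by omega⟩
      refine ⟨n + 1, _, ha.cons hanti (hG c p) ?_ (cfA c w) ?_ ?_ ?_ ?_⟩
      · rw [hp]; exact (special_GG c).h_mem p (by omega)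
      · intro g hg g' hg'; exact (cf_mul h1 hwc hg hg').1
      · unfold hG
        rw [(out_pr hwc _).1, hp]
        exact coeff_hE p (by omega)
      · intro g hg
        rw [mem_VV_succ_iff h1 hwc hg, cfB_even hwc hev, cfC_even hwc hev]
        simp
      · intro g k hk; exact comm_VV g hk
    · have hod : Odd w := ⟨p, hp⟩
      let K : Subgroup (GG c) :=
        { carrier := {g | g ∈ VV c w ∧ cfB c w g = 0}
          one_mem' := ⟨Subgroup.one_mem _,
            ((mem_VV_succ_iff h1 hwc (Subgroup.one_mem _)).mp (Subgroup.one_mem _)).2.1⟩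
          mul_mem' := by
            rintro g g' ⟨hg, hB⟩ ⟨hg', hB'⟩
            exact ⟨Subgroup.mul_mem _ hg hg', by rw [(cf_mul h1 hwc hg hg').2.1, hB, hB', add_zero]⟩
          inv_mem' := by
            rintro g ⟨hg, hB⟩
            refine ⟨Subgroup.inv_mem _ hg, ?_⟩
            have := (cf_mul h1 hwc hg (Subgroup.inv_mem _ hg)).2.1
            rw [mul_inv_cancel, hB, zero_add] at this
            rw [← this]
            exact ((mem_VV_succ_iff h1 hwc (Subgroup.one_mem _)).mp (Subgroup.one_mem _)).2.1 }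
      have hK1 : VV c (w + 1) ≤ K := fun g hg =>
        ⟨hanti hg, ((mem_VV_succ_iff h1 hwc (hanti hg)).mp hg).2.1⟩
      have hK2 : K ≤ VV c w := fun g hg => hg.1
      have hfm : pr c ⟨fE p, fE_mem_one p⟩ ∈ VV c w := by
        rw [hp]; exact ⟨_, fE_mem p, rfl⟩
      have hem : pr c ⟨eE p, eE_mem_one p⟩ ∈ VV c w := by
        rw [hp]; exact ⟨_, eE_mem p, rfl⟩
      have step1 : RelMB K (Fin.cons (pr c ⟨fE p, fE_mem_one p⟩) a : Fin (n + 1) → GG c) := by
        refine ha.cons hK1 _ ?_ (cfC c w) ?_ ?_ ?_ ?_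
        · refine ⟨hfm, ?_⟩
          rw [(out_pr hwc _).2.1]
          simp [fE]
        · intro g hg g' hg'; exact (cf_mul h1 hwc hg.1 hg'.1).2.2
        · rw [(out_pr hwc _).2.2, hp]
          simp [fE]
        · intro g hg
          rw [mem_VV_succ_iff h1 hwc hg.1, cfA_odd hwc hod, hg.2]
          simp
        · intro g k hk; exact comm_VV g hk.1
      refine ⟨n + 2, _, step1.cons hK2 (pr c ⟨eE p, eE_mem_one p⟩) hem (cfB c w) ?_ ?_ ?_ ?_⟩
      · intro g hg g' hg'; exact (cf_mul h1 hwc hg hg').2.1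
      · rw [(out_pr hwc _).2.1, hp]
        simp [eE]
      · intro g hg
        exact ⟨fun h => ⟨hg, h⟩, fun h => h.2⟩
      · intro g k hk; exact hK1 (comm_VV g hk)

theorem exists_malcev (c : ℕ) : ∃ (n : ℕ) (a : Fin n → GG c), IsMalcevBasis a := by
  obtain ⟨n, a, ha⟩ := exists_relMB c c 1 (by omega) le_rfl
  refine ⟨n, a, ?_, ?_, ha.central, fun i hi => ha.strict i hi⟩
  · refine ⟨ha.inj, ?_⟩
    intro g
    exact ha.surj g ((thin_GG c).top_mem g)
  · rw [ha.top, (thin_GG c).one]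

end Pool.Agent.Nickel
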