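import Pool.Agent.Work.MP_41a35f_al.Rank

set_option autoImplicit false

/-!
# The twisted loop group

`SL₂` over integral power series, the subgroup of matrices with even diagonal and odd off-diagonal
entries, filtered by congruence subgroups.
-/

open scoped commutatorElement
open PowerSeries

namespace Pool.Agent.Nickel

/-- the ambient group -/
abbrev SLX : Type := Matrix.SpecialLinearGroup (Fin 2) (PowerSeries ℤ)

namespace SLX

variable (g h : SLX)

/-- entries -/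
def A : PowerSeries ℤ := g.1 0 0
/-- entries -/
def B : PowerSeries ℤ := g.1 0 1
/-- entries -/
def C : PowerSeries ℤ := g.1 1 0
/-- entries -/
def E : PowerSeries ℤ := g.1 1 1

lemma det_eq : A g * E g - B g * C g = 1 := by
  have := g.2
  rw [Matrix.det_fin_two] at this
  exact this

@[simp] lemma A_one : A 1 = 1 := by simp [A]
@[simp] lemma B_one : B 1 = 0 := by simp [B]
@[simp] lemma C_one : C 1 = 0 := by simp [C]
@[simp] lemma E_one : E 1 = 1 := by simp [E]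

lemma A_mul : A (g * h) = A g * A h + B g * C h := by
  simp [A, B, C, Matrix.mul_apply, Fin.sum_univ_two]
lemma B_mul : B (g * h) = A g * B h + B g * E h := by
  simp [A, B, E, Matrix.mul_apply, Fin.sum_univ_two]
lemma C_mul : C (g * h) = C g * A h + E g * C h := by
  simp [A, E, C, Matrix.mul_apply, Fin.sum_univ_two]
lemma E_mul : E (g * h) = C g * B h + E g * E h := by
  simp [B, C, E, Matrix.mul_apply, Fin.sum_univ_two]

lemma A_inv : A g⁻¹ = E g := by
  simp [A, E, Matrix.SpecialLinearGroup.coe_inv, Matrix.adjugate_fin_two]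
lemma B_inv : B g⁻¹ = - B g := by
  simp [B, Matrix.SpecialLinearGroup.coe_inv, Matrix.adjugate_fin_two]
lemma C_inv : C g⁻¹ = - C g := by
  simp [C, Matrix.SpecialLinearGroup.coe_inv, Matrix.adjugate_fin_two]
lemma E_inv : E g⁻¹ = A g := by
  simp [A, E, Matrix.SpecialLinearGroup.coe_inv, Matrix.adjugate_fin_two]

variable {g h}

lemma ext' (hA : A g = A h) (hB : B g = B h) (hC : C g = C h) (hE : E g = E h) : g = h := by
  apply Matrix.SpecialLinearGroup.ext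
  intro i j
  fin_cases i <;> fin_cases j
  · exact hA
  · exact hB
  · exact hC
  · exact hE

end SLX

open SLX

/-- the sign automorphism `X ↦ -X` -/
noncomputable def sg : PowerSeries ℤ →+* PowerSeries ℤ := PowerSeries.rescale (-1)

lemma coeff_sg (f : PowerSeries ℤ) (n : ℕ) : coeff n (sg f) = (-1) ^ n * coeff n f :=
  PowerSeries.coeff_rescale f (-1) n

/-- matrices with even diagonal and odd off-diagonal entries -/
noncomputable def Par : Subgroup SLX where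
  carrier := {g | sg (A g) = A g ∧ sg (B g) = - B g ∧ sg (C g) = - C g ∧ sg (E g) = E g}
  one_mem' := by simp
  mul_mem' := by
    rintro g h ⟨h1, h2, h3, h4⟩ ⟨k1, k2, k3, k4⟩
    simp only [Set.mem_ofPred_eq, A_mul, B_mul, C_mul, E_mul, map_add, map_mul, h1, h2, h3, h4,
      k1, k2, k3, k4]
    refine ⟨by ring, by ring, by ring, by ring⟩
  inv_mem' := by
    rintro g ⟨h1, h2, h3, h4⟩
    simp only [Set.mem_ofPred_eq, A_inv, B_inv, C_inv, E_inv, map_neg, h1, h2, h3, h4]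
    simp

/-- congruence subgroups -/
noncomputable def Cong (w : ℕ) : Subgroup SLX where
  carrier := {g | (X : PowerSeries ℤ) ^ w ∣ A g - 1 ∧ (X : PowerSeries ℤ) ^ w ∣ B g ∧
    (X : PowerSeries ℤ) ^ w ∣ C g ∧ (X : PowerSeries ℤ) ^ w ∣ E g - 1}
  one_mem' := by simp
  mul_mem' := by
    rintro g h ⟨h1, h2, h3, h4⟩ ⟨k1, k2, k3, k4⟩
    simp only [Set.mem_ofPred_eq, A_mul, B_mul, C_mul, E_mul]
    refine ⟨?_, ?_, ?_, ?_⟩
    · have : A g * A h + B g * C h - 1 = (A g - 1) * A h + (A h - 1) + B g * C h := by ring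
      rw [this]
      exact dvd_add (dvd_add (h1.mul_right _) k1) (h2.mul_right _)
    · exact dvd_add (k2.mul_left _) (h2.mul_right _)
    · exact dvd_add (h3.mul_right _) (k3.mul_left _)
    · have : C g * B h + E g * E h - 1 = (E g - 1) * E h + (E h - 1) + C g * B h := by ring
      rw [this]
      exact dvd_add (dvd_add (h4.mul_right _) k4) (h3.mul_right _)
  inv_mem' := by
    rintro g ⟨h1, h2, h3, h4⟩
    simp only [Set.mem_ofPred_eq, A_inv, B_inv, C_inv, E_inv]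
    exact ⟨h4, (dvd_neg).mpr h2, (dvd_neg).mpr h3, h1⟩

/-- the filtration -/
noncomputable def WW (w : ℕ) : Subgroup SLX := Par ⊓ Cong w

lemma Cong_anti : Antitone Cong := by
  intro u v huv g hg
  obtain ⟨h1, h2, h3, h4⟩ := hg
  have hd : (X : PowerSeries ℤ) ^ u ∣ X ^ v := pow_dvd_pow _ huv
  exact ⟨hd.trans h1, hd.trans h2, hd.trans h3, hd.trans h4⟩

lemma WW_anti : Antitone WW := fun _ _ huv => inf_le_inf_left _ (Cong_anti huv)

lemma coeff_of_dvd {w : ℕ} {f : PowerSeries ℤ} (h : (X : PowerSeries ℤ) ^ (w + 1) ∣ f) :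
    coeff w f = 0 := PowerSeries.X_pow_dvd_iff.mp h w (Nat.lt_succ_self w)

lemma dvd_succ_iff {w : ℕ} {f : PowerSeries ℤ} (h : (X : PowerSeries ℤ) ^ w ∣ f)
    (h0 : coeff w f = 0) : (X : PowerSeries ℤ) ^ (w + 1) ∣ f := by
  rw [PowerSeries.X_pow_dvd_iff] at h ⊢
  intro m hm
  rcases Nat.eq_or_lt_of_le (Nat.lt_succ_iff.mp hm) with rfl | hm
  · exact h0
  · exact h m hm

lemma coeff_mul_of_dvd {w : ℕ} (hw : 1 ≤ w) {f f' : PowerSeries ℤ}
    (h : (X : PowerSeries ℤ) ^ w ∣ f) (h' : (X : PowerSeries ℤ) ^ w ∣ f') :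
    coeff w (f * f') = 0 := by
  apply coeff_of_dvd
  have : (X : PowerSeries ℤ) ^ (w + 1) ∣ X ^ w * X ^ w := by
    rw [← pow_add]; exact pow_dvd_pow _ (by omega)
  exact this.trans (mul_dvd_mul h h')

lemma coeff_mul_of_dvd' {w : ℕ} {f f' : PowerSeries ℤ}
    (h : (X : PowerSeries ℤ) ^ w ∣ f) (h' : (X : PowerSeries ℤ) ∣ f') :
    coeff w (f * f') = 0 := by
  apply coeff_of_dvd
  rw [pow_succ]
  exact mul_dvd_mul h h'

lemma coeff_one_of_pos {w : ℕ} (hw : 1 ≤ w) : coeff w (1 : PowerSeries ℤ) = 0 := by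
  rw [PowerSeries.coeff_one, if_neg (by omega)]

section coeffs

variable {w : ℕ} {g h : SLX}

lemma cA_mul (hw : 1 ≤ w) (hg : g ∈ Cong w) (hh : h ∈ Cong w) :
    coeff w (A (g * h)) = coeff w (A g) + coeff w (A h) := by
  have : A (g * h) = A g + A h - 1 + ((A g - 1) * (A h - 1) + B g * C h) := by
    rw [A_mul]; ring
  rw [this, map_add, map_sub, map_add, map_add, coeff_mul_of_dvd hw hg.1 hh.1,
    coeff_mul_of_dvd hw hg.2.1 hh.2.2.1, coeff_one_of_pos hw]
  ring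

lemma cB_mul (hw : 1 ≤ w) (hg : g ∈ Cong w) (hh : h ∈ Cong w) :
    coeff w (B (g * h)) = coeff w (B g) + coeff w (B h) := by
  have : B (g * h) = B g + B h + ((A g - 1) * B h + B g * (E h - 1)) := by
    rw [B_mul]; ring
  rw [this, map_add, map_add, map_add, coeff_mul_of_dvd hw hg.1 hh.2.1,
    coeff_mul_of_dvd hw hg.2.1 hh.2.2.2]
  ring

lemma cC_mul (hw : 1 ≤ w) (hg : g ∈ Cong w) (hh : h ∈ Cong w) :
    coeff w (C (g * h)) = coeff w (C g) + coeff w (C h) := by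
  have : C (g * h) = C g + C h + (C g * (A h - 1) + (E g - 1) * C h) := by
    rw [C_mul]; ring
  rw [this, map_add, map_add, map_add, coeff_mul_of_dvd hw hg.2.2.1 hh.1,
    coeff_mul_of_dvd hw hg.2.2.2 hh.2.2.1]
  ring

lemma cE_eq (hw : 1 ≤ w) (hg : g ∈ Cong w) : coeff w (E g) = - coeff w (A g) := by
  have h1 := det_eq g
  have h2 : A g + E g + ((A g - 1) * (E g - 1) - B g * C g) = 1 + 1 := by
    linear_combination h1
  have h3 := congrArg (coeff w) h2
  rw [map_add, map_sub, map_add, map_add, coeff_mul_of_dvd hw hg.1 hg.2.2.2,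
    coeff_mul_of_dvd hw hg.2.1 hg.2.2.1, coeff_one_of_pos hw] at h3
  linarith

lemma odd_coeff_A (hg : g ∈ Par) (hw : Odd w) : coeff w (A g) = 0 := by
  have h1 := congrArg (coeff w) hg.1
  rw [coeff_sg, hw.neg_one_pow] at h1
  linarith

lemma even_coeff_B (hg : g ∈ Par) (hw : Even w) : coeff w (B g) = 0 := by
  have h1 := congrArg (coeff w) hg.2.1
  rw [coeff_sg, hw.neg_one_pow, map_neg] at h1
  linarith

lemma even_coeff_C (hg : g ∈ Par) (hw : Even w) : coeff w (C g) = 0 := by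
  have h1 := congrArg (coeff w) hg.2.2.1
  rw [coeff_sg, hw.neg_one_pow, map_neg] at h1
  linarith

lemma mem_succ (hw : 1 ≤ w) (hg : g ∈ WW w) (hA : coeff w (A g) = 0) (hB : coeff w (B g) = 0)
    (hC : coeff w (C g) = 0) : g ∈ WW (w + 1) := by
  refine ⟨hg.1, ?_, ?_, ?_, ?_⟩
  · apply dvd_succ_iff hg.2.1
    rw [map_sub, hA, coeff_one_of_pos hw, sub_zero]
  · exact dvd_succ_iff hg.2.2.1 hB
  · exact dvd_succ_iff hg.2.2.2.1 hC
  · apply dvd_succ_iff hg.2.2.2.2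
    rw [map_sub, cE_eq hw hg.2, hA, coeff_one_of_pos hw]
    simp

lemma coeff_of_mem_succ (hw : 1 ≤ w) (hg : g ∈ WW (w + 1)) :
    coeff w (A g) = 0 ∧ coeff w (B g) = 0 ∧ coeff w (C g) = 0 := by
  refine ⟨?_, coeff_of_dvd hg.2.2.1, coeff_of_dvd hg.2.2.2.1⟩
  have := coeff_of_dvd hg.2.1
  rw [map_sub, coeff_one_of_pos hw] at this
  linarith

/-- additive functions on a subgroup and integer powers -/
lemma add_zpow {S : Type} [Group S] (K : Subgroup S) (φ : S → ℤ)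
    (hφ : ∀ x ∈ K, ∀ y ∈ K, φ (x * y) = φ x + φ y) {x : S} (hx : x ∈ K) (k : ℤ) :
    φ (x ^ k) = k * φ x := by
  let f : K →* Multiplicative ℤ := MonoidHom.mk' (fun x => Multiplicative.ofAdd (φ x))
    (fun x y => by
      simp only [Subgroup.coe_mul]
      rw [hφ x x.2 y y.2, ofAdd_add])
  have h1 : f ((⟨x, hx⟩ : K) ^ k) = f ⟨x, hx⟩ ^ k := map_zpow f _ _
  have h2 : Multiplicative.toAdd (f ((⟨x, hx⟩ : K) ^ k)) = k * φ x := by
    rw [h1, toAdd_zpow]
    simp [f]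
  simpa [f] using h2

lemma cA_zpow (hw : 1 ≤ w) (hg : g ∈ Cong w) (k : ℤ) :
    coeff w (A (g ^ k)) = k * coeff w (A g) :=
  add_zpow (Cong w) (fun g => coeff w (A g)) (fun _ hx _ hy => cA_mul hw hx hy) hg k

lemma cB_zpow (hw : 1 ≤ w) (hg : g ∈ Cong w) (k : ℤ) :
    coeff w (B (g ^ k)) = k * coeff w (B g) :=
  add_zpow (Cong w) (fun g => coeff w (B g)) (fun _ hx _ hy => cB_mul hw hx hy) hg k

lemma cC_zpow (hw : 1 ≤ w) (hg : g ∈ Cong w) (k : ℤ) :
    coeff w (C (g ^ k)) = k * coeff w (C g) :=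
  add_zpow (Cong w) (fun g => coeff w (C g)) (fun _ hx _ hy => cC_mul hw hx hy) hg k

end coeffs

section comm

variable {u v : ℕ} {g h : SLX}

lemma comm_entries (g h : SLX) :
    A ⁅g, h⁆ - 1 = (A (g * h) - A (h * g)) * E (h * g) - (B (g * h) - B (h * g)) * C (h * g) ∧
    B ⁅g, h⁆ = (B (g * h) - B (h * g)) * A (h * g) - (A (g * h) - A (h * g)) * B (h * g) ∧
    C ⁅g, h⁆ = (C (g * h) - C (h * g)) * E (h * g) - (E (g * h) - E (h * g)) * C (h * g) ∧
    E ⁅g, h⁆ - 1 = (E (g * h) - E (h * g)) * A (h * g) - (C (g * h) - C (h * g)) * B (h * g) := by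
  have h1 : ⁅g, h⁆ = (g * h) * (h * g)⁻¹ := by
    rw [commutatorElement_def]; group
  have h2 := det_eq (h * g)
  rw [h1]
  generalize g * h = P at *
  generalize h * g = R at *
  rw [A_mul, B_mul, C_mul, E_mul, A_inv, B_inv, C_inv, E_inv]
  refine ⟨?_, ?_, ?_, ?_⟩
  · linear_combination h2
  · ring
  · ring
  · linear_combination h2

lemma diff_entries (g h : SLX) :
    A (g * h) - A (h * g) = B g * C h - B h * C g ∧
    B (g * h) - B (h * g) = ((A g - 1) - (E g - 1)) * B h - ((A h - 1) - (E h - 1)) * B g ∧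
    C (g * h) - C (h * g) = C g * ((A h - 1) - (E h - 1)) - C h * ((A g - 1) - (E g - 1)) ∧
    E (g * h) - E (h * g) = C g * B h - C h * B g := by
  simp only [A_mul, B_mul, C_mul, E_mul]
  refine ⟨by ring, by ring, by ring, by ring⟩

lemma diff_dvd (hg : g ∈ Cong u) (hh : h ∈ Cong v) :
    (X : PowerSeries ℤ) ^ (u + v) ∣ A (g * h) - A (h * g) ∧
    (X : PowerSeries ℤ) ^ (u + v) ∣ B (g * h) - B (h * g) ∧
    (X : PowerSeries ℤ) ^ (u + v) ∣ C (g * h) - C (h * g) ∧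
    (X : PowerSeries ℤ) ^ (u + v) ∣ E (g * h) - E (h * g) := by
  obtain ⟨e1, e2, e3, e4⟩ := diff_entries g h
  obtain ⟨g1, g2, g3, g4⟩ := hg
  obtain ⟨h1, h2, h3, h4⟩ := hh
  rw [e1, e2, e3, e4, pow_add]
  have g5 := dvd_sub g1 g4
  have h5 := dvd_sub h1 h4
  refine ⟨?_, ?_, ?_, ?_⟩
  · refine dvd_sub (mul_dvd_mul g2 h3) ?_
    rw [mul_comm (B h)]
    exact mul_dvd_mul g3 h2
  · refine dvd_sub (mul_dvd_mul g5 h2) ?_
    rw [mul_comm ((A h - 1) - (E h - 1))]
    exact mul_dvd_mul g2 h5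
  · refine dvd_sub (mul_dvd_mul g3 h5) ?_
    rw [mul_comm (C h)]
    exact mul_dvd_mul g5 h3
  · refine dvd_sub (mul_dvd_mul g3 h2) ?_
    rw [mul_comm (C h)]
    exact mul_dvd_mul g2 h3

lemma comm_mem_Cong (hg : g ∈ Cong u) (hh : h ∈ Cong v) : ⁅g, h⁆ ∈ Cong (u + v) := by
  obtain ⟨e1, e2, e3, e4⟩ := comm_entries g h
  obtain ⟨d1, d2, d3, d4⟩ := diff_dvd hg hh
  refine ⟨?_, ?_, ?_, ?_⟩
  · rw [e1]; exact dvd_sub (d1.mul_right _) (d2.mul_right _)
  · rw [e2]; exact dvd_sub (d2.mul_right _) (d1.mul_right _)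
  · rw [e3]; exact dvd_sub (d3.mul_right _) (d4.mul_right _)
  · rw [e4]; exact dvd_sub (d4.mul_right _) (d3.mul_right _)

lemma comm_mem_WW (hg : g ∈ WW u) (hh : h ∈ WW v) : ⁅g, h⁆ ∈ WW (u + v) := by
  refine ⟨?_, comm_mem_Cong hg.2 hh.2⟩
  rw [commutatorElement_def]
  exact Par.mul_mem (Par.mul_mem (Par.mul_mem hg.1 hh.1) (Par.inv_mem hg.1)) (Par.inv_mem hh.1)

/-- leading coefficients of a commutator -/
lemma comm_coeff (hg : g ∈ Cong u) (hh : h ∈ Cong v) (hu : 1 ≤ u) (hv : 1 ≤ v) :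
    coeff (u + v) (A ⁅g, h⁆) = coeff (u + v) (A (g * h) - A (h * g)) ∧
    coeff (u + v) (B ⁅g, h⁆) = coeff (u + v) (B (g * h) - B (h * g)) ∧
    coeff (u + v) (C ⁅g, h⁆) = coeff (u + v) (C (g * h) - C (h * g)) := by
  obtain ⟨e1, e2, e3, e4⟩ := comm_entries g h
  obtain ⟨d1, d2, d3, d4⟩ := diff_dvd hg hh
  have hR : h * g ∈ Cong 1 := (Cong 1).mul_mem (Cong_anti hv hh) (Cong_anti hu hg)
  obtain ⟨r1, r2, r3, r4⟩ := hR
  rw [pow_one] at r1 r2 r3 r4
  refine ⟨?_, ?_, ?_⟩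
  · have : A ⁅g, h⁆ = 1 + ((A (g * h) - A (h * g)) + ((A (g * h) - A (h * g)) * (E (h * g) - 1)
        - (B (g * h) - B (h * g)) * C (h * g))) := by linear_combination e1
    rw [this, map_add, map_add, map_sub (coeff (u + v)) (_ * _), coeff_mul_of_dvd' d1 r4,
      coeff_mul_of_dvd' d2 r3, coeff_one_of_pos (by omega)]
    ring
  · have : B ⁅g, h⁆ = (B (g * h) - B (h * g)) + ((B (g * h) - B (h * g)) * (A (h * g) - 1)
        - (A (g * h) - A (h * g)) * B (h * g)) := by linear_combination e2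
    rw [this, map_add, map_sub (coeff (u + v)) (_ * _), coeff_mul_of_dvd' d2 r1,
      coeff_mul_of_dvd' d1 r2]
    ring
  · have : C ⁅g, h⁆ = (C (g * h) - C (h * g)) + ((C (g * h) - C (h * g)) * (E (h * g) - 1)
        - (E (g * h) - E (h * g)) * C (h * g)) := by linear_combination e3
    rw [this, map_add, map_sub (coeff (u + v)) (_ * _), coeff_mul_of_dvd' d3 r4,
      coeff_mul_of_dvd' d4 r3]
    ring

end comm

/-! ### Special elements -/

/-- upper unitriangular matrices -/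
noncomputable def UU (x : PowerSeries ℤ) : SLX :=
  ⟨!![1, x; 0, 1], by simp [Matrix.det_fin_two]⟩

/-- lower unitriangular matrices -/
noncomputable def LL (x : PowerSeries ℤ) : SLX :=
  ⟨!![1, 0; x, 1], by simp [Matrix.det_fin_two]⟩

/-- diagonal matrices -/
noncomputable def HH (x y : PowerSeries ℤ) (h : x * y = 1) : SLX :=
  ⟨!![x, 0; 0, y], by simp [Matrix.det_fin_two, h]⟩

section entries
variable (x y : PowerSeries ℤ) (h : x * y = 1)
@[simp] lemma A_UU : A (UU x) = 1 := rfl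
@[simp] lemma B_UU : B (UU x) = x := rfl
@[simp] lemma C_UU : C (UU x) = 0 := rfl
@[simp] lemma E_UU : E (UU x) = 1 := rfl
@[simp] lemma A_LL : A (LL x) = 1 := rfl
@[simp] lemma B_LL : B (LL x) = 0 := rfl
@[simp] lemma C_LL : C (LL x) = x := rfl
@[simp] lemma E_LL : E (LL x) = 1 := rfl
@[simp] lemma A_HH : A (HH x y h) = x := rfl
@[simp] lemma B_HH : B (HH x y h) = 0 := rfl
@[simp] lemma C_HH : C (HH x y h) = 0 := rfl
@[simp] lemma E_HH : E (HH x y h) = y := rfl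
end entries

lemma UU_mem {w : ℕ} {x : PowerSeries ℤ} (hs : sg x = -x) (hw : (X : PowerSeries ℤ) ^ w ∣ x) :
    UU x ∈ WW w := by
  refine ⟨⟨?_, ?_, ?_, ?_⟩, ⟨?_, ?_, ?_, ?_⟩⟩ <;> simp [hs, hw]

lemma LL_mem {w : ℕ} {x : PowerSeries ℤ} (hs : sg x = -x) (hw : (X : PowerSeries ℤ) ^ w ∣ x) :
    LL x ∈ WW w := by
  refine ⟨⟨?_, ?_, ?_, ?_⟩, ⟨?_, ?_, ?_, ?_⟩⟩ <;> simp [hs, hw]

lemma HH_mem {w : ℕ} {x y : PowerSeries ℤ} (h : x * y = 1) (hx : sg x = x) (hy : sg y = y)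
    (hwx : (X : PowerSeries ℤ) ^ w ∣ x - 1) (hwy : (X : PowerSeries ℤ) ^ w ∣ y - 1) :
    HH x y h ∈ WW w := by
  refine ⟨⟨?_, ?_, ?_, ?_⟩, ⟨?_, ?_, ?_, ?_⟩⟩ <;> simp [hx, hy, hwx, hwy]

lemma sg_X_pow (n : ℕ) : sg (X ^ n) = (-1) ^ n * X ^ n := by
  have : sg X = -X := by
    unfold sg
    rw [PowerSeries.rescale_X]
    simp
  rw [map_pow, this, neg_pow]

/-- `1 + X^(2p)` for `p ≥ 1` -/
noncomputable def uu (p : ℕ) : PowerSeries ℤ := 1 + X ^ (2 * (p - 1) + 2)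

/-- the inverse of `uu p` -/
noncomputable def vv (p : ℕ) : PowerSeries ℤ := PowerSeries.invOfUnit (uu p) 1

lemma uv (p : ℕ) : uu p * vv p = 1 := by
  apply PowerSeries.mul_invOfUnit
  simp [uu]

lemma sg_uu (p : ℕ) : sg (uu p) = uu p := by
  unfold uu
  rw [map_add, map_one, sg_X_pow]
  have : Even (2 * (p - 1) + 2) := ⟨p - 1 + 1, by ring⟩
  rw [this.neg_one_pow, one_mul]

lemma sg_vv (p : ℕ) : sg (vv p) = vv p := by
  have h1 := congrArg sg (uv p)
  rw [map_mul, sg_uu, map_one] at h1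
  have h2 := uv p
  calc sg (vv p) = (uu p * vv p) * sg (vv p) := by rw [h2, one_mul]
    _ = vv p * (uu p * sg (vv p)) := by ring
    _ = vv p := by rw [h1, mul_one]

/-- the elements `e b` -/
noncomputable def eE (b : ℕ) : SLX := UU (X ^ (2 * b + 1))
/-- the elements `f b` -/
noncomputable def fE (b : ℕ) : SLX := LL (X ^ (2 * b + 1))
/-- the elements `h p` -/
noncomputable def hE (p : ℕ) : SLX := HH (uu p) (vv p) (uv p)

lemma sg_odd (b : ℕ) : sg (X ^ (2 * b + 1)) = - X ^ (2 * b + 1) := by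
  rw [sg_X_pow]
  have : Odd (2 * b + 1) := ⟨b, rfl⟩
  rw [this.neg_one_pow, neg_one_mul]

lemma eE_mem (b : ℕ) : eE b ∈ WW (2 * b + 1) := UU_mem (sg_odd b) (dvd_refl _)

lemma fE_mem (b : ℕ) : fE b ∈ WW (2 * b + 1) := LL_mem (sg_odd b) (dvd_refl _)

lemma uu_sub (p : ℕ) (hp : 1 ≤ p) : uu p - 1 = X ^ (2 * p) := by
  unfold uu
  have : 2 * (p - 1) + 2 = 2 * p := by omega
  rw [this]; ring

lemma vv_sub (p : ℕ) (hp : 1 ≤ p) : vv p - 1 = - vv p * X ^ (2 * p) := by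
  rw [← uu_sub p hp]
  have := uv p
  linear_combination this

lemma hE_mem (p : ℕ) (hp : 1 ≤ p) : hE p ∈ WW (2 * p) := by
  apply HH_mem _ (sg_uu p) (sg_vv p)
  · rw [uu_sub p hp]
  · rw [vv_sub p hp]
    exact Dvd.intro_left _ rfl

lemma hE_comm (p q : ℕ) : hE p * hE q = hE q * hE p := by
  apply ext' <;> simp [hE, A_mul, B_mul, C_mul, E_mul, mul_comm]

lemma hE_eE (b p : ℕ) (hp : 1 ≤ p) :
    ∃ z ∈ WW (2 * b + 2 * p + 2), hE p * eE b = eE b * hE p * (eE (b + p) ^ 2 * z) := by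
  refine ⟨UU (X ^ (2 * b + 4 * p + 1) * (vv p ^ 2 - 2 * vv p ^ 2 * (2 + X ^ (2 * p)))), ?_, ?_⟩
  · apply UU_mem
    · have e1 : 2 * b + 4 * p + 1 = 2 * (b + 2 * p) + 1 := by ring
      have e2 : sg (X ^ (2 * p)) = X ^ (2 * p) := by
        rw [sg_X_pow, (even_two_mul p).neg_one_pow, one_mul]
      have e3 : sg (2 : PowerSeries ℤ) = 2 := map_ofNat sg 2
      rw [map_mul, map_sub, map_mul, map_mul, map_add, map_pow sg (vv p), sg_vv, e1, sg_odd, e2, e3]
      ring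
    · apply Dvd.dvd.mul_right
      exact pow_dvd_pow _ (by omega)
  · have h1 := uv p
    have h2 := uu_sub p hp
    have h3 : uu p = 1 + X ^ (2 * p) := by linear_combination h2
    apply ext'
    · simp [hE, eE, A_mul, B_mul, C_mul, E_mul, pow_two]
    · simp only [hE, eE, A_mul, B_mul, C_mul, E_mul, pow_two, A_HH, B_HH, C_HH, E_HH, A_UU, B_UU,
        C_UU, E_UU, mul_zero, zero_mul, add_zero, zero_add, mul_one, one_mul]
      generalize vv p = v at *
      rw [h3] at h1 ⊢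
      have e1 : (X : PowerSeries ℤ) ^ (2 * b + 4 * p + 1) = X ^ (2 * b + 1) * X ^ (2 * p) * X ^ (2 * p) := by
        rw [← pow_add, ← pow_add]; congr 1; ring
      have e2 : (X : PowerSeries ℤ) ^ (2 * (b + p) + 1) = X ^ (2 * b + 1) * X ^ (2 * p) := by
        rw [← pow_add]; congr 1; ring
      rw [e1, e2]
      generalize (X : PowerSeries ℤ) ^ (2 * b + 1) = y
      generalize (X : PowerSeries ℤ) ^ (2 * p) = t at *
      linear_combination (-y * ((1 - t - 2 * t ^ 2) + t ^ 2 * v * (-3 - 2 * t))) * h1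
    · simp [hE, eE, A_mul, B_mul, C_mul, E_mul, pow_two]
    · simp [hE, eE, A_mul, B_mul, C_mul, E_mul, pow_two]

end Pool.Agent.Nickel
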