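import Pool.Agent.Work.MP_41a35f_al.Defs

set_option autoImplicit false

/-!
# Elementary facts on Mal'cev bases
-/

open scoped commutatorElement

namespace Pool.Agent.Nickel

variable {G : Type} [Group G] {n : ℕ} {a : Fin n → G}

lemma orderedProd_eq_mul (a : Fin n → G) (x : Fin n → ℤ) (i : ℕ) :
    orderedProd a x = ((List.ofFn fun j => a j ^ x j).take i).prod *
      ((List.ofFn fun j => a j ^ x j).drop i).prod :=
  (List.prod_take_mul_prod_drop _ _).symm

lemma orderedProd_eq_drop (a : Fin n → G) (x : Fin n → ℤ) (i : ℕ)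
    (h : ∀ j : Fin n, (j : ℕ) < i → x j = 0) :
    orderedProd a x = ((List.ofFn fun j => a j ^ x j).drop i).prod := by
  rw [orderedProd_eq_mul a x i]
  have : ((List.ofFn fun j => a j ^ x j).take i).prod = 1 := by
    apply List.prod_eq_one
    intro g hg
    rw [List.mem_take_iff_getElem] at hg
    obtain ⟨j, hj, rfl⟩ := hg
    rw [List.getElem_ofFn]
    rw [h]
    · simp
    · simp only [lt_inf_iff] at hj
      exact hj.1
  rw [this, one_mul]

lemma drop_prod_eq (a : Fin n → G) (x : Fin n → ℤ) (i : Fin n) :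
    ((List.ofFn fun j => a j ^ x j).drop (i : ℕ)).prod =
      a i ^ x i * ((List.ofFn fun j => a j ^ x j).drop ((i : ℕ) + 1)).prod := by
  rw [List.drop_eq_getElem_cons (by simp)]
  simp

lemma drop_congr (a : Fin n → G) (x x' : Fin n → ℤ) (i : ℕ)
    (h : ∀ j : Fin n, i ≤ (j : ℕ) → x j = x' j) :
    (List.ofFn fun j => a j ^ x j).drop i = (List.ofFn fun j => a j ^ x' j).drop i := by
  apply List.ext_getElem
  · simp
  · intro k h1 h2
    simp only [List.getElem_drop, List.getElem_ofFn]
    rw [h]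
    simp

lemma orderedProd_zero (a : Fin n → G) : orderedProd a 0 = 1 := by
  unfold orderedProd
  apply List.prod_eq_one
  intro g hg
  rw [List.mem_ofFn] at hg
  obtain ⟨j, rfl⟩ := hg
  simp

lemma tail_antitone_succ (a : Fin n → G) (i : ℕ) : tailSubgroup a (i + 1) ≤ tailSubgroup a i := by
  apply Subgroup.closure_mono
  rintro g ⟨j, hj, rfl⟩
  exact ⟨j, by omega, rfl⟩

lemma tail_antitone (a : Fin n → G) : Antitone (tailSubgroup a) :=
  antitone_nat_of_succ_le (tail_antitone_succ a)

lemma mem_tail (a : Fin n → G) (i : ℕ) (j : Fin n) (h : i ≤ (j : ℕ)) : a j ∈ tailSubgroup a i :=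
  Subgroup.subset_closure ⟨j, h, rfl⟩

lemma tail_eq_bot (a : Fin n → G) (i : ℕ) (h : n ≤ i) : tailSubgroup a i = ⊥ := by
  unfold tailSubgroup
  rw [Subgroup.closure_eq_bot_iff]
  rintro g ⟨j, hj, rfl⟩
  have := j.isLt
  omega

namespace IsMalcevBasis

variable (h : IsMalcevBasis a)

include h

lemma comm_mem {i : ℕ} (g : G) {k : G} (hk : k ∈ tailSubgroup a i) :
    ⁅g, k⁆ ∈ tailSubgroup a (i + 1) :=
  h.central i (Subgroup.commutator_mem_commutator (Subgroup.mem_top g) hk)

lemma normal (i : ℕ) : (tailSubgroup a i).Normal := by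
  constructor
  intro k hk g
  have h1 := tail_antitone_succ a i (h.comm_mem g hk)
  have : g * k * g⁻¹ = ⁅g, k⁆ * k := by
    rw [commutatorElement_def]; group
  rw [this]
  exact Subgroup.mul_mem _ h1 hk

lemma exists_decomp (i : Fin n) {g : G} (hg : g ∈ tailSubgroup a (i : ℕ)) :
    ∃ (y : ℤ) (k : G), k ∈ tailSubgroup a ((i : ℕ) + 1) ∧ g = a i ^ y * k := by
  have hn := h.normal ((i : ℕ) + 1)
  induction hg using Subgroup.closure_induction with
  | mem g hg =>
    obtain ⟨j, hj, rfl⟩ := hg
    rcases Nat.eq_or_lt_of_le hj with hj | hj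
    · have : i = j := Fin.ext hj
      subst this
      exact ⟨1, 1, Subgroup.one_mem _, by simp⟩
    · exact ⟨0, a j, mem_tail a _ j hj, by simp⟩
  | one => exact ⟨0, 1, Subgroup.one_mem _, by simp⟩
  | mul g g' _ _ ih ih' =>
    obtain ⟨y, k, hk, rfl⟩ := ih
    obtain ⟨y', k', hk', rfl⟩ := ih'
    refine ⟨y + y', (a i ^ (-y')) * k * (a i ^ (-y'))⁻¹ * k', ?_, ?_⟩
    · exact Subgroup.mul_mem _ (hn.conj_mem k hk _) hk'
    · group
  | inv g _ ih =>
    obtain ⟨y, k, hk, rfl⟩ := ih
    refine ⟨-y, (a i ^ y) * k⁻¹ * (a i ^ y)⁻¹, ?_, ?_⟩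
    · exact hn.conj_mem _ (Subgroup.inv_mem _ hk) _
    · group

lemma exists_expr : ∀ (d i : ℕ), n - i = d → ∀ g ∈ tailSubgroup a i,
    ∃ x : Fin n → ℤ, (∀ j : Fin n, (j : ℕ) < i → x j = 0) ∧ orderedProd a x = g := by
  intro d
  induction d with
  | zero =>
    intro i hi g hg
    rw [tail_eq_bot a i (by omega)] at hg
    rw [Subgroup.mem_bot] at hg
    subst hg
    exact ⟨0, fun _ _ => rfl, orderedProd_zero a⟩
  | succ d ih =>
    intro i hi g hg
    have hin : i < n := by omega
    obtain ⟨y, k, hk, rfl⟩ := h.exists_decomp ⟨i, hin⟩ hg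
    obtain ⟨x, hx, rfl⟩ := ih (i + 1) (by omega) k hk
    refine ⟨Function.update x ⟨i, hin⟩ y, ?_, ?_⟩
    · intro j hj
      rw [Function.update_of_ne]
      · exact hx j (by omega)
      · intro hj'
        rw [hj'] at hj
        simp at hj
    · rw [orderedProd_eq_drop a _ i, drop_prod_eq a _ ⟨i, hin⟩, orderedProd_eq_drop a x (i + 1) hx]
      · congr 1
        · simp
        · congr 1
          apply drop_congr
          intro j hj
          rw [Function.update_of_ne]
          intro hj'
          rw [hj'] at hj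
          simp at hj
      · intro j hj
        rw [Function.update_of_ne]
        · exact hx j (by omega)
        · intro hj'
          rw [hj'] at hj
          simp at hj

lemma orderedProd_coord (g : G) : orderedProd a (coord a g) = g :=
  Function.invFun_eq (h.bij.2 g)

lemma coord_orderedProd (x : Fin n → ℤ) : coord a (orderedProd a x) = x :=
  Function.leftInverse_invFun h.bij.1 x

lemma coord_eq_zero {i : ℕ} {g : G} (hg : g ∈ tailSubgroup a i) (j : Fin n) (hj : (j : ℕ) < i) :
    coord a g j = 0 := by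
  obtain ⟨x, hx, rfl⟩ := h.exists_expr _ i rfl g hg
  rw [h.coord_orderedProd]
  exact hx j hj

lemma coord_one (j : Fin n) : coord a 1 j = 0 := by
  rw [← orderedProd_zero a, h.coord_orderedProd]
  rfl

lemma coord_zpow_mul (l : Fin n) (y : ℤ) {k : G} (hk : k ∈ tailSubgroup a ((l : ℕ) + 1)) :
    coord a (a l ^ y * k) = Function.update (coord a k) l y := by
  have hx : ∀ j : Fin n, (j : ℕ) < (l : ℕ) + 1 → coord a k j = 0 :=
    fun j hj => h.coord_eq_zero hk j hj
  have : orderedProd a (Function.update (coord a k) l y) = a l ^ y * k := by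
    conv_rhs => rw [← h.orderedProd_coord k]
    rw [orderedProd_eq_drop a _ l, drop_prod_eq a _ l, orderedProd_eq_drop a (coord a k) (l + 1) hx]
    · congr 1
      · simp
      · congr 1
        apply drop_congr
        intro j hj
        rw [Function.update_of_ne]
        intro hj'
        rw [hj'] at hj
        simp at hj
    · intro j hj
      rw [Function.update_of_ne]
      · exact hx j (by omega)
      · intro hj'
        rw [hj'] at hj
        simp at hj
  rw [← this, h.coord_orderedProd]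

lemma coord_zpow_mul_self (l : Fin n) (y : ℤ) {k : G}
    (hk : k ∈ tailSubgroup a ((l : ℕ) + 1)) : coord a (a l ^ y * k) l = y := by
  rw [h.coord_zpow_mul l y hk]; simp

lemma coord_zpow_mul_of_lt (l j : Fin n) (hlj : l < j) (y : ℤ) {k : G}
    (hk : k ∈ tailSubgroup a ((l : ℕ) + 1)) : coord a (a l ^ y * k) j = coord a k j := by
  rw [h.coord_zpow_mul l y hk, Function.update_of_ne (ne_of_gt hlj)]

lemma coord_self (l : Fin n) : coord a (a l) l = 1 := by
  have := h.coord_zpow_mul_self l 1 (k := 1) (Subgroup.one_mem _)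
  simpa using this

lemma coord_mul {l : Fin n} {g g' : G} (hg : g ∈ tailSubgroup a (l : ℕ))
    (hg' : g' ∈ tailSubgroup a (l : ℕ)) :
    coord a (g * g') l = coord a g l + coord a g' l := by
  obtain ⟨y, k, hk, rfl⟩ := h.exists_decomp l hg
  obtain ⟨y', k', hk', rfl⟩ := h.exists_decomp l hg'
  rw [h.coord_zpow_mul_self l y hk, h.coord_zpow_mul_self l y' hk']
  have : a l ^ y * k * (a l ^ y' * k') =
      a l ^ (y + y') * ((a l ^ (-y')) * k * (a l ^ (-y'))⁻¹ * k') := by group
  rw [this, h.coord_zpow_mul_self]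
  exact Subgroup.mul_mem _ ((h.normal _).conj_mem k hk _) hk'

lemma coord_pow {l : Fin n} {g : G} (hg : g ∈ tailSubgroup a (l : ℕ)) (k : ℕ) :
    coord a (g ^ k) l = k * coord a g l := by
  induction k with
  | zero => simp [h.coord_one]
  | succ k ih =>
    rw [pow_succ, h.coord_mul (Subgroup.pow_mem _ hg k) hg, ih]
    push_cast; ring

lemma mem_succ_of_coord {l : Fin n} {g : G} (hg : g ∈ tailSubgroup a (l : ℕ))
    (h0 : coord a g l = 0) : g ∈ tailSubgroup a ((l : ℕ) + 1) := by
  obtain ⟨y, k, hk, rfl⟩ := h.exists_decomp l hg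
  rw [h.coord_zpow_mul_self l y hk] at h0
  subst h0
  simpa using hk

/-- the flag subgroups are isolated -/
lemma isolated (i : ℕ) {g : G} {k : ℕ} (hk : 0 < k) (hg : g ^ k ∈ tailSubgroup a i) :
    g ∈ tailSubgroup a i := by
  induction i with
  | zero => rw [h.top]; exact Subgroup.mem_top g
  | succ i ih =>
    have h1 := ih (tail_antitone_succ a i hg)
    by_cases hin : i < n
    · apply h.mem_succ_of_coord (l := ⟨i, hin⟩) h1
      have h2 := h.coord_eq_zero hg ⟨i, hin⟩ (by simp)
      rw [h.coord_pow (l := ⟨i, hin⟩) h1] at h2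
      have : (k : ℤ) ≠ 0 := by exact_mod_cast hk.ne'
      rcases mul_eq_zero.mp h2 with h3 | h3
      · exact absurd h3 this
      · exact h3
    · rw [tail_eq_bot a i (by omega)] at h1
      rw [tail_eq_bot a (i + 1) (by omega)]
      exact h1

lemma isolated_zpow (i : ℕ) {g : G} {k : ℤ} (hk : k ≠ 0) (hg : g ^ k ∈ tailSubgroup a i) :
    g ∈ tailSubgroup a i := by
  apply h.isolated i (k := k.natAbs) (Int.natAbs_pos.mpr hk)
  rcases Int.natAbs_eq k with hk' | hk'
  · rw [hk'] at hg
    rwa [zpow_natCast] at hg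
  · rw [hk', zpow_neg, zpow_natCast] at hg
    exact (Subgroup.inv_mem_iff _).mp hg

lemma le_of_tail_eq_bot {i : ℕ} (hi : tailSubgroup a i = ⊥) : n ≤ i := by
  by_contra hlt
  push Not at hlt
  have := h.strict i hlt
  rw [hi] at this
  exact not_lt_bot this

lemma isTauGroup : IsTauGroup G := by
  refine ⟨?_, ?_, ?_⟩
  · rw [Group.fg_iff]
    refine ⟨{g | ∃ j : Fin n, 0 ≤ (j : ℕ) ∧ a j = g}, h.top, ?_⟩
    apply Set.Finite.subset (Set.finite_range a)
    rintro g ⟨j, _, rfl⟩
    exact ⟨j, rfl⟩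
  · intro g hg k hk hgk
    apply hg
    have : g ^ k ∈ tailSubgroup a n := by rw [hgk]; exact Subgroup.one_mem _
    have := h.isolated n hk this
    rwa [tail_eq_bot a n le_rfl, Subgroup.mem_bot] at this
  · rw [Subgroup.nilpotent_iff_finite_descending_central_series]
    refine ⟨n, tailSubgroup a, ⟨h.top, ?_⟩, tail_eq_bot a n le_rfl⟩
    intro x i hx g
    rw [← commutatorElement_inv]
    exact Subgroup.inv_mem _ (h.comm_mem g hx)

end IsMalcevBasis

end Pool.Agent.Nickel
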