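import Pool.Agent.Work.MP_41a35f_al.Loop

set_option autoImplicit false

/-!
# The truncated loop groups are thin
-/

open scoped commutatorElement
open PowerSeries

namespace Pool.Agent.Nickel

open SLX

/-- the pronilpotent group -/
abbrev Gam : Type := ↥(WW 1)

/-- its filtration -/
noncomputable def WG (w : ℕ) : Subgroup Gam := (WW w).subgroupOf (WW 1)

lemma mem_WG {w : ℕ} {x : Gam} : x ∈ WG w ↔ x.1 ∈ WW w := Subgroup.mem_subgroupOf

instance WG_normal (w : ℕ) : (WG w).Normal := by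
  constructor
  intro x hx g
  rw [mem_WG] at hx ⊢
  have h1 : ⁅(g : SLX), (x : SLX)⁆ ∈ WW w := WW_anti (by omega) (comm_mem_WW g.2 hx)
  have h2 : ((g * x * g⁻¹ : Gam) : SLX) = ⁅(g : SLX), (x : SLX)⁆ * x := by
    rw [commutatorElement_def]
    simp
  rw [h2]
  exact (WW w).mul_mem h1 hx

/-- the truncated group -/
abbrev GG (c : ℕ) : Type := Gam ⧸ WG (c + 1)

/-- the projection -/
noncomputable def pr (c : ℕ) : Gam →* GG c := QuotientGroup.mk' (WG (c + 1))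

lemma pr_surj (c : ℕ) : Function.Surjective (pr c) := QuotientGroup.mk'_surjective _

/-- the filtration of the truncated group -/
noncomputable def VV (c w : ℕ) : Subgroup (GG c) := (WG w).map (pr c)

lemma mem_VV {c w : ℕ} (hw : w ≤ c + 1) (x : Gam) : pr c x ∈ VV c w ↔ x.1 ∈ WW w := by
  constructor
  · rintro ⟨y, hy, hxy⟩
    have h1 : y⁻¹ * x ∈ WG (c + 1) := by
      have : (y : GG c) = (x : GG c) := hxy
      exact QuotientGroup.eq.mp this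
    rw [mem_WG] at h1
    have hy' : y.1 ∈ WW w := hy
    have h2 := (WW w).mul_mem hy' (WW_anti hw h1)
    simpa using h2
  · intro hx
    exact ⟨x, hx, rfl⟩

lemma mem_VV' {c w : ℕ} {g : GG c} (hg : g ∈ VV c w) : ∃ x : Gam, x.1 ∈ WW w ∧ pr c x = g := by
  obtain ⟨x, hx, rfl⟩ := hg
  exact ⟨x, hx, rfl⟩

/-! ### covering -/

lemma coeff_e0 {v : ℕ} (hv : 1 ≤ v) {x : SLX} (hx : x ∈ WW v) :
    coeff (v + 1) (A ⁅x, eE 0⁆) = - coeff v (C x) ∧
    coeff (v + 1) (B ⁅x, eE 0⁆) = 2 * coeff v (A x) ∧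
    coeff (v + 1) (C ⁅x, eE 0⁆) = 0 := by
  obtain ⟨c1, c2, c3⟩ := comm_coeff hx.2 (eE_mem 0).2 hv (by omega)
  obtain ⟨d1, d2, d3, d4⟩ := diff_entries x (eE 0)
  have e1 : 2 * 0 + 1 = 1 := rfl
  rw [e1] at c1 c2 c3
  rw [c1, c2, c3, d1, d2, d3]
  simp only [eE, A_UU, B_UU, C_UU, E_UU, zero_add, pow_one, mul_zero, zero_sub, map_neg, sub_self,
    zero_mul, sub_zero, map_zero, and_true]
  rw [PowerSeries.coeff_succ_X_mul, mul_comm _ X, PowerSeries.coeff_succ_X_mul, map_sub, map_sub,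
    map_sub, cE_eq hv hx.2]
  exact ⟨rfl, by ring⟩

lemma coeff_f0 {v : ℕ} (hv : 1 ≤ v) {x : SLX} (hx : x ∈ WW v) :
    coeff (v + 1) (A ⁅x, fE 0⁆) = coeff v (B x) ∧
    coeff (v + 1) (B ⁅x, fE 0⁆) = 0 ∧
    coeff (v + 1) (C ⁅x, fE 0⁆) = - 2 * coeff v (A x) := by
  obtain ⟨c1, c2, c3⟩ := comm_coeff hx.2 (fE_mem 0).2 hv (by omega)
  obtain ⟨d1, d2, d3, d4⟩ := diff_entries x (fE 0)
  have e1 : 2 * 0 + 1 = 1 := rfl
  rw [e1] at c1 c2 c3
  rw [c1, c2, c3, d1, d2, d3]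
  simp only [fE, A_LL, B_LL, C_LL, E_LL, zero_add, pow_one, mul_zero, zero_sub, map_neg, sub_self,
    zero_mul, sub_zero, map_zero, true_and]
  rw [mul_comm _ X, PowerSeries.coeff_succ_X_mul, PowerSeries.coeff_succ_X_mul, map_sub, map_sub,
    map_sub, cE_eq hv hx.2]
  exact ⟨rfl, by ring⟩

lemma cover_SLX {v : ℕ} (hv : 1 ≤ v) {x y : SLX} (hx : x ∈ WW v) (hx' : x ∉ WW (v + 1))
    (hy : y ∈ WW (v + 1)) : ∃ k : ℤ, k ≠ 0 ∧ ∃ i j : ℤ,
      (⁅x, eE 0⁆ ^ i * ⁅x, fE 0⁆ ^ j)⁻¹ * y ^ k ∈ WW (v + 2) := by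
  obtain ⟨a1, b1, c1⟩ := coeff_e0 hv hx
  obtain ⟨a2, b2, c2⟩ := coeff_f0 hv hx
  have m1 : ⁅x, eE 0⁆ ∈ WW (v + 1) := comm_mem_WW hx (eE_mem 0)
  have m2 : ⁅x, fE 0⁆ ∈ WW (v + 1) := comm_mem_WW hx (fE_mem 0)
  generalize ⁅x, eE 0⁆ = z1 at *
  generalize ⁅x, fE 0⁆ = z2 at *
  -- general computation of leading coefficients
  have key : ∀ k i j : ℤ,
      coeff (v + 1) (A ((z1 ^ i * z2 ^ j)⁻¹ * y ^ k)) =
        -(i * coeff (v + 1) (A z1) + j * coeff (v + 1) (A z2)) + k * coeff (v + 1) (A y) ∧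
      coeff (v + 1) (B ((z1 ^ i * z2 ^ j)⁻¹ * y ^ k)) =
        -(i * coeff (v + 1) (B z1) + j * coeff (v + 1) (B z2)) + k * coeff (v + 1) (B y) ∧
      coeff (v + 1) (C ((z1 ^ i * z2 ^ j)⁻¹ * y ^ k)) =
        -(i * coeff (v + 1) (C z1) + j * coeff (v + 1) (C z2)) + k * coeff (v + 1) (C y) := by
    intro k i j
    have n1 : z1 ^ i ∈ Cong (v + 1) := (Cong (v + 1)).zpow_mem m1.2 i
    have n2 : z2 ^ j ∈ Cong (v + 1) := (Cong (v + 1)).zpow_mem m2.2 j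
    have n3 : z1 ^ i * z2 ^ j ∈ Cong (v + 1) := (Cong (v + 1)).mul_mem n1 n2
    have n4 : (z1 ^ i * z2 ^ j)⁻¹ ∈ Cong (v + 1) := (Cong (v + 1)).inv_mem n3
    have n5 : y ^ k ∈ Cong (v + 1) := (Cong (v + 1)).zpow_mem hy.2 k
    have hv1 : 1 ≤ v + 1 := by omega
    have iA := cA_zpow hv1 n3 (-1)
    have iB := cB_zpow hv1 n3 (-1)
    have iC := cC_zpow hv1 n3 (-1)
    rw [zpow_neg_one] at iA iB iC
    rw [cA_mul hv1 n4 n5, cB_mul hv1 n4 n5, cC_mul hv1 n4 n5, iA, iB, iC,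
      cA_mul hv1 n1 n2, cB_mul hv1 n1 n2, cC_mul hv1 n1 n2, cA_zpow hv1 m1.2, cB_zpow hv1 m1.2,
      cC_zpow hv1 m1.2, cA_zpow hv1 m2.2, cB_zpow hv1 m2.2, cC_zpow hv1 m2.2,
      cA_zpow hv1 hy.2, cB_zpow hv1 hy.2, cC_zpow hv1 hy.2]
    refine ⟨by ring, by ring, by ring⟩
  have mem : ∀ k i j : ℤ, (z1 ^ i * z2 ^ j)⁻¹ * y ^ k ∈ WW (v + 1) := fun k i j =>
    (WW (v + 1)).mul_mem ((WW (v + 1)).inv_mem ((WW (v + 1)).mul_mem
      ((WW (v + 1)).zpow_mem m1 i) ((WW (v + 1)).zpow_mem m2 j))) ((WW (v + 1)).zpow_mem hy k)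
  rcases Nat.even_or_odd v with hev | hod
  · -- v even
    have hB : coeff v (B x) = 0 := even_coeff_B hx.1 hev
    have hC : coeff v (C x) = 0 := even_coeff_C hx.1 hev
    have hA : coeff v (A x) ≠ 0 := by
      intro hA
      exact hx' (mem_succ hv hx hA hB hC)
    have hyA : coeff (v + 1) (A y) = 0 := odd_coeff_A hy.1 hev.add_one
    refine ⟨2 * coeff v (A x), by simpa using hA, coeff (v + 1) (B y), - coeff (v + 1) (C y), ?_⟩
    obtain ⟨k1, k2, k3⟩ := key (2 * coeff v (A x)) (coeff (v + 1) (B y)) (- coeff (v + 1) (C y))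
    apply mem_succ (by omega) (mem _ _ _)
    · rw [k1, a1, a2, hB, hC, hyA]; ring
    · rw [k2, b1, b2]; ring
    · rw [k3, c1, c2]; ring
  · -- v odd
    have hA : coeff v (A x) = 0 := odd_coeff_A hx.1 hod
    have hyB : coeff (v + 1) (B y) = 0 := even_coeff_B hy.1 hod.add_one
    have hyC : coeff (v + 1) (C y) = 0 := even_coeff_C hy.1 hod.add_one
    by_cases hC : coeff v (C x) = 0
    · have hB : coeff v (B x) ≠ 0 := by
        intro hB
        exact hx' (mem_succ hv hx hA hB hC)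
      refine ⟨coeff v (B x), hB, 0, coeff (v + 1) (A y), ?_⟩
      obtain ⟨k1, k2, k3⟩ := key (coeff v (B x)) 0 (coeff (v + 1) (A y))
      apply mem_succ (by omega) (mem _ _ _)
      · rw [k1, a1, a2]; ring
      · rw [k2, b1, b2, hA, hyB]; ring
      · rw [k3, c1, c2, hA, hyC]; ring
    · refine ⟨coeff v (C x), hC, - coeff (v + 1) (A y), 0, ?_⟩
      obtain ⟨k1, k2, k3⟩ := key (coeff v (C x)) (- coeff (v + 1) (A y)) 0
      apply mem_succ (by omega) (mem _ _ _)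
      · rw [k1, a1, a2]; ring
      · rw [k2, b1, b2, hA, hyB]; ring
      · rw [k3, c1, c2, hA, hyC]; ring

lemma eE_not_mem (b : ℕ) : eE b ∉ WW (2 * b + 1 + 1) := by
  intro h
  have := (coeff_of_mem_succ (by omega) h).2.1
  simp [eE] at this

lemma fE_not_mem (b : ℕ) : fE b ∉ WW (2 * b + 1 + 1) := by
  intro h
  have := (coeff_of_mem_succ (by omega) h).2.2
  simp [fE] at this

lemma coeff_hE (p : ℕ) (hp : 1 ≤ p) : coeff (2 * p) (A (hE p)) = 1 := by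
  have h1 : A (hE p) = 1 + X ^ (2 * p) := by
    have := uu_sub p hp
    simp only [hE, A_HH]
    linear_combination this
  rw [h1, map_add, coeff_one_of_pos (by omega)]
  simp

lemma hE_not_mem (p : ℕ) (hp : 1 ≤ p) : hE p ∉ WW (2 * p + 1) := by
  intro h
  have := (coeff_of_mem_succ (by omega) h).1
  rw [coeff_hE p hp] at this
  exact one_ne_zero this

lemma hE_mem_one (p : ℕ) : hE p ∈ WW 1 := by
  cases p with
  | zero =>
    have : hE 0 = hE 1 := rfl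
    rw [this]
    exact WW_anti (by omega) (hE_mem 1 le_rfl)
  | succ p => exact WW_anti (by omega) (hE_mem (p + 1) (by omega))

lemma eE_mem_one (b : ℕ) : eE b ∈ WW 1 := WW_anti (by omega) (eE_mem b)
lemma fE_mem_one (b : ℕ) : fE b ∈ WW 1 := WW_anti (by omega) (fE_mem b)

theorem thin_GG (c : ℕ) : Thin (VV c) c where
  one := by
    unfold VV WG
    rw [Subgroup.subgroupOf_self]
    exact Subgroup.map_top_of_surjective _ (pr_surj c)
  anti := by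
    intro u v huv
    apply Subgroup.map_mono
    intro x hx
    exact WW_anti huv hx
  comm := by
    intro u v g h hg hh
    obtain ⟨x, hx, rfl⟩ := mem_VV' hg
    obtain ⟨y, hy, rfl⟩ := mem_VV' hh
    rw [← map_commutatorElement]
    exact ⟨⁅x, y⁆, comm_mem_WW hx hy, rfl⟩
  bot := by
    unfold VV
    rw [Subgroup.map_eq_bot_iff, pr, QuotientGroup.ker_mk']
  iso := by
    intro w hw hwc g hg k hk hgk
    obtain ⟨x, hx, rfl⟩ := mem_VV' hg
    rw [← map_zpow, mem_VV (by omega)] at hgk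
    rw [mem_VV (by omega)]
    have hgk' : x.1 ^ k ∈ WW (w + 1) := by simpa using hgk
    obtain ⟨h1, h2, h3⟩ := coeff_of_mem_succ hw hgk'
    rw [cA_zpow hw hx.2] at h1
    rw [cB_zpow hw hx.2] at h2
    rw [cC_zpow hw hx.2] at h3
    exact mem_succ hw hx ((mul_eq_zero.mp h1).resolve_left hk) ((mul_eq_zero.mp h2).resolve_left hk)
      ((mul_eq_zero.mp h3).resolve_left hk)
  ne := by
    intro w hw hwc
    rcases Nat.even_or_odd' w with ⟨p, hp | hp⟩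
    · refine ⟨pr c ⟨hE p, hE_mem_one p⟩, ?_, ?_⟩
      · rw [mem_VV (by omega), hp]; exact hE_mem p (by omega)
      · rw [mem_VV (by omega), hp]; exact hE_not_mem p (by omega)
    · refine ⟨pr c ⟨eE p, eE_mem_one p⟩, ?_, ?_⟩
      · rw [mem_VV (by omega), hp]; exact eE_mem p
      · rw [mem_VV (by omega), hp]; exact eE_not_mem p
  cover := by
    intro v hv hvc g hg hg' N hN y0 hy0
    obtain ⟨x, hx, rfl⟩ := mem_VV' hg
    obtain ⟨y, hy, rfl⟩ := mem_VV' hy0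
    rw [mem_VV (by omega)] at hg'
    obtain ⟨k, hk, i, j, hmem⟩ := cover_SLX hv hx hg' hy
    set e0 : Gam := ⟨eE 0, eE_mem_one 0⟩
    set f0 : Gam := ⟨fE 0, fE_mem_one 0⟩
    refine ⟨k, hk, pr c (⁅x, e0⁆ ^ i * ⁅x, f0⁆ ^ j), ?_, pr c ((⁅x, e0⁆ ^ i * ⁅x, f0⁆ ^ j)⁻¹ * y ^ k),
      ?_, ?_⟩
    · rw [map_mul, map_zpow, map_zpow, map_commutatorElement, map_commutatorElement]
      exact N.mul_mem (N.zpow_mem (hN _) i) (N.zpow_mem (hN _) j)
    · exact ⟨_, hmem, rfl⟩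
    · rw [← map_mul, ← map_zpow]
      congr 1
      group

/-- special elements in `GG c` -/
noncomputable def eG (c b : ℕ) : GG c := pr c ⟨eE b, eE_mem_one b⟩
/-- special elements in `GG c` -/
noncomputable def hG (c p : ℕ) : GG c := pr c ⟨hE p, hE_mem_one p⟩

theorem special_GG (c : ℕ) : Special (VV c) (eG c) (hG c) where
  e_mem b := ⟨_, eE_mem b, rfl⟩
  h_mem p hp := ⟨_, hE_mem p hp, rfl⟩
  h_comm p q := by
    unfold hG
    rw [← map_mul, ← map_mul]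
    congr 1
    exact Subtype.ext (hE_comm p q)
  rel b p hp := by
    obtain ⟨z, hz, hrel⟩ := hE_eE b p hp
    refine ⟨pr c ⟨z, WW_anti (by omega) hz⟩, ⟨_, hz, rfl⟩, ?_⟩
    unfold hG eG
    rw [← map_mul, ← map_mul, ← map_pow, ← map_mul, ← map_mul]
    congr 1
    exact Subtype.ext hrel

lemma eG_ne_one (m : ℕ) : eG (2 * m + 1) m ≠ 1 := by
  intro h
  have h1 : eG (2 * m + 1) m ∈ VV (2 * m + 1) (2 * m + 1 + 1) := by
    rw [h]; exact Subgroup.one_mem _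
  unfold eG at h1
  rw [mem_VV le_rfl] at h1
  exact eE_not_mem m h1

/-- three vectors in `ℤ²` are dependent -/
lemma three_dep (a0 b0 a1 b1 a2 b2 : ℤ) : ∃ p q r : ℤ, ¬ (p = 0 ∧ q = 0 ∧ r = 0) ∧
    p * a0 + q * a1 + r * a2 = 0 ∧ p * b0 + q * b1 + r * b2 = 0 := by
  by_cases h1 : a1 * b2 - a2 * b1 = 0 ∧ a2 * b0 - a0 * b2 = 0 ∧ a0 * b1 - a1 * b0 = 0
  · obtain ⟨_, _, h3⟩ := h1
    by_cases ha : a0 = 0
    · by_cases hb : b0 = 0
      · exact ⟨1, 0, 0, by simp, by simp [ha], by simp [hb]⟩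
      · refine ⟨b1, -b0, 0, by simp [hb], ?_, ?_⟩
        · linear_combination h3
        · ring
    · refine ⟨a1, -a0, 0, by simp [ha], ?_, ?_⟩
      · ring
      · linear_combination -h3
  · refine ⟨a1 * b2 - a2 * b1, a2 * b0 - a0 * b2, a0 * b1 - a1 * b0, h1, ?_, ?_⟩
    · ring
    · ring

theorem rank2_GG (c : ℕ) : ∀ w, 1 ≤ w → w ≤ c → ∀ x ∈ VV c w, ∀ y ∈ VV c w, ∀ z ∈ VV c w,
    ∃ p q r : ℤ, ¬ (p = 0 ∧ q = 0 ∧ r = 0) ∧ x ^ p * y ^ q * z ^ r ∈ VV c (w + 1) := by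
  intro w hw hwc x0 hx0 y0 hy0 z0 hz0
  obtain ⟨x, hx, rfl⟩ := mem_VV' hx0
  obtain ⟨y, hy, rfl⟩ := mem_VV' hy0
  obtain ⟨z, hz, rfl⟩ := mem_VV' hz0
  have key : ∀ p q r : ℤ,
      coeff w (A (x.1 ^ p * y.1 ^ q * z.1 ^ r)) =
        p * coeff w (A x.1) + q * coeff w (A y.1) + r * coeff w (A z.1) ∧
      coeff w (B (x.1 ^ p * y.1 ^ q * z.1 ^ r)) =
        p * coeff w (B x.1) + q * coeff w (B y.1) + r * coeff w (B z.1) ∧
      coeff w (C (x.1 ^ p * y.1 ^ q * z.1 ^ r)) =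
        p * coeff w (C x.1) + q * coeff w (C y.1) + r * coeff w (C z.1) := by
    intro p q r
    have n1 : x.1 ^ p ∈ Cong w := (Cong w).zpow_mem hx.2 p
    have n2 : y.1 ^ q ∈ Cong w := (Cong w).zpow_mem hy.2 q
    have n3 : z.1 ^ r ∈ Cong w := (Cong w).zpow_mem hz.2 r
    have n4 : x.1 ^ p * y.1 ^ q ∈ Cong w := (Cong w).mul_mem n1 n2
    rw [cA_mul hw n4 n3, cB_mul hw n4 n3, cC_mul hw n4 n3, cA_mul hw n1 n2, cB_mul hw n1 n2,
      cC_mul hw n1 n2, cA_zpow hw hx.2, cB_zpow hw hx.2, cC_zpow hw hx.2,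
      cA_zpow hw hy.2, cB_zpow hw hy.2, cC_zpow hw hy.2,
      cA_zpow hw hz.2, cB_zpow hw hz.2, cC_zpow hw hz.2]
    exact ⟨rfl, rfl, rfl⟩
  have hmemw : ∀ p q r : ℤ, x.1 ^ p * y.1 ^ q * z.1 ^ r ∈ WW w := fun p q r =>
    (WW w).mul_mem ((WW w).mul_mem ((WW w).zpow_mem hx p) ((WW w).zpow_mem hy q))
      ((WW w).zpow_mem hz r)
  obtain ⟨p, q, r, hpqr, h1, h2⟩ := three_dep
    (coeff w (A x.1) + coeff w (B x.1)) (coeff w (C x.1))
    (coeff w (A y.1) + coeff w (B y.1)) (coeff w (C y.1))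
    (coeff w (A z.1) + coeff w (B z.1)) (coeff w (C z.1))
  refine ⟨p, q, r, hpqr, ?_⟩
  refine ⟨x ^ p * y ^ q * z ^ r, ?_, by simp⟩
  obtain ⟨kA, kB, kC⟩ := key p q r
  have hC0 : coeff w (C (x.1 ^ p * y.1 ^ q * z.1 ^ r)) = 0 := by rw [kC, h2]
  have hAB : coeff w (A (x.1 ^ p * y.1 ^ q * z.1 ^ r)) +
      coeff w (B (x.1 ^ p * y.1 ^ q * z.1 ^ r)) = 0 := by
    rw [kA, kB]; linear_combination h1
  show ((x ^ p * y ^ q * z ^ r : Gam) : SLX) ∈ WW (w + 1)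
  have e1 : ((x ^ p * y ^ q * z ^ r : Gam) : SLX) = x.1 ^ p * y.1 ^ q * z.1 ^ r := by simp
  rw [e1]
  rcases Nat.even_or_odd w with hev | hod
  · have hB := even_coeff_B (hmemw p q r).1 hev
    exact mem_succ hw (hmemw p q r) (by linarith) hB hC0
  · have hA := odd_coeff_A (hmemw p q r).1 hod
    exact mem_succ hw (hmemw p q r) hA (by linarith) hC0

end Pool.Agent.Nickel
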