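import Pool.Agent.Work.MP_41a35f_al.Comb

set_option autoImplicit false

/-!
# Lower bound for the size of Nickel's module in a thin group
-/

open scoped commutatorElement

namespace Pool.Agent.Nickel

variable {G : Type} [Group G]

/-- the difference operator as a linear map -/
def Dl (g : G) : (G → ℚ) →ₗ[ℚ] (G → ℚ) where
  toFun := D g
  map_add' := by
    intro f f'
    funext x
    simp only [D, Pi.add_apply]
    ring
  map_smul' := by
    intro r f
    funext x
    simp only [D, Pi.smul_apply, smul_eq_mul, RingHom.id_apply]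
    ring

@[simp] lemma Dl_apply (g : G) (f : G → ℚ) : Dl g f = D g f := rfl

/-- polynomial functions of bounded degree -/
def PolyW : ℕ → Submodule ℚ (G → ℚ)
  | 0 => ⊥
  | w + 1 => ⨅ g : G, (PolyW w).comap (Dl g)

lemma mem_PolyW_succ {w : ℕ} {f : G → ℚ} : f ∈ PolyW (w + 1) ↔ ∀ g : G, D g f ∈ PolyW (G := G) w := by
  simp only [PolyW, Submodule.mem_iInf, Submodule.mem_comap, Dl_apply]

lemma Wt.mem_PolyW {V : ℕ → Subgroup G} (hV : V 1 = ⊤) {w : ℕ} :
    ∀ {f : G → ℚ}, Wt V ⊤ w f → f ∈ PolyW (G := G) w := by
  induction w with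
  | zero =>
    intro f hf
    simp only [PolyW, Submodule.mem_bot]
    funext x
    exact hf.eq_zero x (Subgroup.mem_top x)
  | succ w ih =>
    intro f hf
    rw [mem_PolyW_succ]
    intro g
    have := hf.diff (u := 1) le_rfl (Subgroup.mem_top g) (by rw [hV]; exact Subgroup.mem_top g)
    exact ih this

lemma polyW_fg {n : ℕ} {a : Fin n → G} (ha : Subgroup.closure (Set.range a) = ⊤) (w : ℕ) :
    (PolyW (G := G) w).FG := by
  induction w with
  | zero => exact Submodule.fg_bot
  | succ w ih =>
    apply Submodule.fg_of_fg_map_of_fg_inf_ker (f := LinearMap.pi (fun i => Dl (a i)))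
    · have h1 : (Submodule.pi Set.univ (fun _ : Fin n => PolyW (G := G) w)).FG :=
        Submodule.fg_pi fun _ => ih
      have h2 : (PolyW (G := G) (w + 1)).map (LinearMap.pi (fun i => Dl (a i))) ≤
          Submodule.pi Set.univ (fun _ : Fin n => PolyW (G := G) w) := by
        rw [Submodule.map_le_iff_le_comap]
        intro f hf
        rw [mem_PolyW_succ] at hf
        simp only [Submodule.mem_comap, Submodule.mem_pi, Set.mem_univ, forall_const,
          LinearMap.pi_apply, Dl_apply]
        intro i
        exact hf (a i)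
      haveI : FiniteDimensional ℚ (Submodule.pi Set.univ (fun _ : Fin n => PolyW (G := G) w)) :=
        Module.Finite.iff_fg.mpr h1
      exact Module.Finite.iff_fg.mp (Submodule.finiteDimensional_of_le h2)
    · have h2 : PolyW (G := G) (w + 1) ⊓ LinearMap.ker (LinearMap.pi (fun i => Dl (a i))) ≤
          Submodule.span ℚ {(fun _ => 1 : G → ℚ)} := by
        rintro f ⟨_, hf⟩
        have hf' : ∀ i x, f (x * a i) = f x := by
          intro i x
          have h3 : (LinearMap.pi (fun i => Dl (a i))) f = (0 : Fin n → G → ℚ) := hf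
          have h4 := congrFun (congrFun h3 i) x
          simp only [LinearMap.pi_apply, Dl_apply, D, Pi.zero_apply] at h4
          linarith
        have hall : ∀ g x, f (x * g) = f x := by
          intro g
          have hg : g ∈ Subgroup.closure (Set.range a) := by rw [ha]; exact Subgroup.mem_top g
          induction hg using Subgroup.closure_induction with
          | mem g hg =>
            obtain ⟨i, rfl⟩ := hg
            exact hf' i
          | one => intro x; rw [mul_one]
          | mul g g' _ _ ih ih' => intro x; rw [← mul_assoc, ih', ih]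
          | inv g _ ih =>
            intro x
            have := ih (x * g⁻¹)
            rw [inv_mul_cancel_right] at this
            exact this.symm
        rw [Submodule.mem_span_singleton]
        refine ⟨f 1, ?_⟩
        funext x
        have := hall x 1
        rw [one_mul] at this
        simp [this]
      haveI : FiniteDimensional ℚ (Submodule.span ℚ {(fun _ => 1 : G → ℚ)}) := inferInstance
      exact Module.Finite.iff_fg.mp (Submodule.finiteDimensional_of_le h2)

variable {V : ℕ → Subgroup G} {c n : ℕ} {a : Fin n → G}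

lemma closure_range (h : IsMalcevBasis a) : Subgroup.closure (Set.range a) = ⊤ := by
  rw [← h.top]
  unfold tailSubgroup
  congr 1
  ext g
  simp

lemma nickel_finite (hT : Thin V c) (h : IsMalcevBasis a) :
    FiniteDimensional ℚ (nickelModule a) := by
  haveI : FiniteDimensional ℚ (PolyW (G := G) (c + 1)) :=
    Module.Finite.iff_fg.mpr (polyW_fg (closure_range h) (c + 1))
  have hle : nickelModule a ≤ PolyW (G := G) (c + 1) := by
    unfold nickelModule
    rw [Submodule.span_le]
    rintro f ⟨i, g, rfl⟩
    have h1 := (hT.wt_coord h i).translate (fun g _ => hT.top_mem g) (Subgroup.mem_top g⁻¹)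
    exact Wt.mem_PolyW hT.one h1
  exact Submodule.finiteDimensional_of_le hle

lemma coord_mem (a : Fin n → G) (i : Fin n) :
    (fun g => ((coord a g i : ℤ) : ℚ)) ∈ nickelModule a := by
  apply Submodule.subset_span
  exact ⟨i, 1, by simp⟩

lemma translate_mem {f : G → ℚ} (hf : f ∈ nickelModule a) (g : G) :
    (fun x => f (x * g)) ∈ nickelModule a := by
  have hle : nickelModule a ≤ (nickelModule a).comap (LinearMap.funLeft ℚ ℚ (fun x : G => x * g)) := by
    conv_lhs => unfold nickelModule
    rw [Submodule.span_le]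
    rintro f ⟨i, g', rfl⟩
    apply Submodule.subset_span
    refine ⟨i, g' * g⁻¹, ?_⟩
    funext x
    simp [LinearMap.funLeft_apply, mul_assoc]
  exact hle hf

lemma D_mem {f : G → ℚ} (hf : f ∈ nickelModule a) (g : G) : D g f ∈ nickelModule a :=
  Submodule.sub_mem _ (translate_mem hf g) hf

lemma DL_mem {f : G → ℚ} (hf : f ∈ nickelModule a) (h : ℕ → G) (P : List ℕ) :
    DL h P f ∈ nickelModule a := by
  induction P with
  | nil => exact hf
  | cons p P ih => exact D_mem ih _

/-- `DL` as a linear map -/
def DLl (h : ℕ → G) (P : List ℕ) : (G → ℚ) →ₗ[ℚ] (G → ℚ) :=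
  P.foldr (fun p L => (Dl (h p)).comp L) LinearMap.id

lemma DLl_apply (h : ℕ → G) (P : List ℕ) (f : G → ℚ) : DLl h P f = DL h P f := by
  induction P with
  | nil => rfl
  | cons p P ih =>
    simp only [DLl, List.foldr_cons, LinearMap.comp_apply, Dl_apply, DL_cons] at ih ⊢
    rw [ih]

lemma exists_index (hT : Thin V c) (h : IsMalcevBasis a) (hc : 1 ≤ c) {g : G} (hg : g ∈ V c)
    (hg1 : g ≠ 1) : ∃ j, a j ∈ V c ∧ coord a g j ≠ 0 := by
  obtain ⟨i, hi⟩ := hT.flag' h hc (by omega)
  by_contra hcon
  push Not at hcon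
  apply hg1
  rw [← h.orderedProd_coord g]
  have : coord a g = 0 := by
    funext j
    by_cases hj : (j : ℕ) < i
    · exact h.coord_eq_zero (by rwa [← hi]) j hj
    · apply hcon j
      rw [hi]
      exact mem_tail a i j (by omega)
  rw [this, orderedProd_zero]

/-- main lower bound -/
theorem rank_bound (hT : Thin V c) (h : IsMalcevBasis a) {e h' : ℕ → G} (hS : Special V e h')
    {m r w : ℕ} (hw : 1 ≤ w) (hc : c = 2 * m + 1) (hm : m = totL w (8 * w) r)
    (hem : e m ≠ 1) : w ^ r ≤ nickelSize a := by
  have hem' : e m ∈ V c := by rw [hc]; exact hS.e_mem m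
  obtain ⟨j, hj, hjm⟩ := exists_index hT h (by omega) hem' hem
  haveI := nickel_finite hT h
  set t : G → ℚ := fun g => ((coord a g j : ℤ) : ℚ) with ht
  let lst : (Fin r → Fin w) → List ℕ := fun x => List.ofFn (fun i => ((x i : Fin w) : ℕ))
  have hlen : ∀ x, (lst x).length = r := fun x => by simp [lst]
  have hlt : ∀ x, ∀ z ∈ lst x, z < w := by
    intro x z hz
    simp only [lst, List.mem_ofFn] at hz
    obtain ⟨i, rfl⟩ := hz
    exact (x i).isLt
  have hinj : Function.Injective lst := by
    intro x y hxy
    have := List.ofFn_injective hxy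
    funext i
    exact Fin.ext (congrFun this i)
  let row : (Fin r → Fin w) → List ℕ := fun x => rowL w (8 * w) 0 (lst x)
  let col : (Fin r → Fin w) → List ℕ := fun y => colL w (8 * w) (8 * w) 0 (lst y)
  let F : (Fin r → Fin w) → (G → ℚ) := fun y => DL h' (col y) t
  let ev : (Fin r → Fin w) → (G → ℚ) →ₗ[ℚ] ℚ := fun x =>
    (LinearMap.proj (1 : G)).comp ((Dl (e (8 * w))).comp (DLl h' (row x)))
  have hev : ∀ x y, ev x (F y) = D (e (8 * w)) (DL h' (zipL (row x) (col y)) t) 1 := by
    intro x y
    simp only [ev, F, LinearMap.comp_apply, Dl_apply, LinearMap.proj_apply]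
    rw [DLl_apply, ← DL_append, DL_perm hS (zipL_perm (row x) (col y))]
  have hnz : ∀ x y, ev x (F y) ≠ 0 ↔ Legit (8 * w) (zipL (row x) (col y)) := by
    intro x y
    rw [hev]
    have hs := zip_sorted w hw (lst x) (lst y) (8 * w) (8 * w) 0 0 (by rw [hlen, hlen])
      (hlt x) (hlt y) le_rfl (by omega)
    have hsum := zip_sum w hw (lst x) (lst y) (8 * w) (8 * w) 0 0 (8 * w) (by rw [hlen, hlen])
      (hlt x) (hlt y) le_rfl (by omega) (by omega)
    rw [hlen] at hsum
    apply eval_ne_zero_iff hT h hS hc hj hjm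
    · intro p hp
      have := hs.1 p hp
      omega
    · exact hs.2
    · rw [hm]; exact hsum
  have hind : LinearIndependent ℚ F := by
    apply linInd_of_triangular F ev (fun x => Pot 0 (lst x))
    · intro x
      rw [hnz]
      exact legit_diag w hw (lst x) (8 * w) (8 * w) 0 (hlt x) (by omega) (by omega)
    · intro x y hxy
      rw [hnz] at hxy
      have hdom := dom_of_legit w hw (lst x) (lst y) (8 * w) (8 * w) 0 0 (8 * w)
        (by rw [hlen, hlen]) (hlt x) (hlt y) le_rfl (by omega) (by omega) hxy
      have hle := pot_le (lst x) (lst y) 0 0 (by rw [hlen, hlen]) hdom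
      rcases Nat.eq_or_lt_of_le hle with heq | hlt'
      · left
        exact hinj (eq_of_pot (lst x) (lst y) 0 (by rw [hlen, hlen]) hdom heq)
      · right; exact hlt'
  have hspan : Submodule.span ℚ (Set.range F) ≤ nickelModule a := by
    rw [Submodule.span_le]
    rintro f ⟨y, rfl⟩
    exact DL_mem (coord_mem a j) h' _
  have h1 := finrank_span_eq_card hind
  have h2 := Submodule.finrank_mono hspan
  rw [h1, Fintype.card_fun, Fintype.card_fin, Fintype.card_fin] at h2
  exact h2

/-- length bound -/
theorem length_bound (hT : Thin V c) (h : IsMalcevBasis a)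
    (hR : ∀ w, 1 ≤ w → w ≤ c → ∀ x ∈ V w, ∀ y ∈ V w, ∀ z ∈ V w,
      ∃ p q r : ℤ, ¬ (p = 0 ∧ q = 0 ∧ r = 0) ∧ x ^ p * y ^ q * z ^ r ∈ V (w + 1)) :
    n ≤ 2 * c := by
  have main : ∀ w, w ≤ c → ∃ i, i ≤ 2 * w ∧ V (w + 1) = tailSubgroup a i := by
    intro w
    induction w with
    | zero =>
      intro _
      exact ⟨0, le_rfl, by rw [zero_add, hT.one, h.top]⟩
    | succ w ih =>
      intro hw
      obtain ⟨i, hi, hVi⟩ := ih (by omega)
      obtain ⟨i', hVi'⟩ := hT.flag' h (w := w + 1 + 1) (by omega) (by omega)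
      by_cases hle : i' ≤ i + 2
      · exact ⟨i', by omega, hVi'⟩
      · push Not at hle
        by_cases hin : i + 2 < n
        · exfalso
          have m0 : a ⟨i, by omega⟩ ∈ V (w + 1) := by rw [hVi]; exact mem_tail a i _ le_rfl
          have m1 : a ⟨i + 1, by omega⟩ ∈ V (w + 1) := by
            rw [hVi]; exact mem_tail a i _ (by simp)
          have m2 : a ⟨i + 2, by omega⟩ ∈ V (w + 1) := by
            rw [hVi]; exact mem_tail a i _ (by simp)
          obtain ⟨p, q, r, hpqr, hmem⟩ := hR (w + 1) (by omega) (by omega) _ m0 _ m1 _ m2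
          rw [hVi'] at hmem
          apply hpqr
          have z2 : a ⟨i + 2, hin⟩ ^ r ∈ tailSubgroup a (i + 2) :=
            Subgroup.zpow_mem _ (mem_tail a (i + 2) ⟨i + 2, hin⟩ le_rfl) r
          have z1 : a ⟨i + 1, by omega⟩ ^ q * a ⟨i + 2, hin⟩ ^ r ∈ tailSubgroup a (i + 1) :=
            Subgroup.mul_mem _ (Subgroup.zpow_mem _ (mem_tail a (i + 1) ⟨i + 1, by omega⟩ le_rfl) q)
              (tail_antitone_succ a (i + 1) z2)
          have c0 := h.coord_zpow_mul_self ⟨i, by omega⟩ p z1
          rw [← mul_assoc, h.coord_eq_zero hmem ⟨i, by omega⟩ (by simp only; omega)] at c0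
          subst c0
          rw [zpow_zero, one_mul] at hmem
          have c1 := h.coord_zpow_mul_self ⟨i + 1, by omega⟩ q z2
          rw [h.coord_eq_zero hmem ⟨i + 1, by omega⟩ (by simp only; omega)] at c1
          subst c1
          rw [zpow_zero, one_mul] at hmem
          have c2 := h.coord_zpow_mul_self ⟨i + 2, hin⟩ r (k := 1) (Subgroup.one_mem _)
          rw [mul_one, h.coord_eq_zero hmem ⟨i + 2, hin⟩ (by simp only; omega)] at c2
          exact ⟨rfl, rfl, c2.symm⟩
        · refine ⟨i + 2, by omega, ?_⟩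
          rw [hVi', tail_eq_bot a i' (by omega), tail_eq_bot a (i + 2) (by omega)]
  obtain ⟨i, hi, hVi⟩ := main c le_rfl
  rw [hT.bot] at hVi
  exact (h.le_of_tail_eq_bot hVi.symm).trans hi

end Pool.Agent.Nickel
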