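import Pool.Agent.Work.MP_41a35f_al.Weight

set_option autoImplicit false

/-!
# Thin filtrations: the flags of all Mal'cev bases are forced
-/

open scoped commutatorElement

namespace Pool.Agent.Nickel

variable {G : Type} [Group G]

/-- A filtration with the covering property. -/
structure Thin (V : ℕ → Subgroup G) (c : ℕ) : Prop where
  one : V 1 = ⊤
  anti : Antitone V
  comm : ∀ (u v : ℕ) (g h : G), g ∈ V u → h ∈ V v → ⁅g, h⁆ ∈ V (u + v)
  bot : V (c + 1) = ⊥
  iso : ∀ w, 1 ≤ w → w ≤ c → ∀ g ∈ V w, ∀ k : ℤ, k ≠ 0 → g ^ k ∈ V (w + 1) → g ∈ V (w + 1)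
  ne : ∀ w, 1 ≤ w → w ≤ c → ∃ g ∈ V w, g ∉ V (w + 1)
  cover : ∀ v, 1 ≤ v → v + 1 ≤ c → ∀ x ∈ V v, x ∉ V (v + 1) → ∀ N : Subgroup G,
    (∀ g, ⁅x, g⁆ ∈ N) → ∀ y ∈ V (v + 1), ∃ k : ℤ, k ≠ 0 ∧ ∃ z ∈ N, ∃ z' ∈ V (v + 2), y ^ k = z * z'

variable {V : ℕ → Subgroup G} {c n : ℕ} {a : Fin n → G}

lemma Thin.top_mem (hT : Thin V c) (g : G) : g ∈ V 1 := by
  rw [hT.one]; exact Subgroup.mem_top g

/-- every `V w` is one of the flag subgroups of an arbitrary Mal'cev basis -/
lemma Thin.flag (hT : Thin V c) (h : IsMalcevBasis a) :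
    ∀ d w, w + d = c + 1 → 1 ≤ w → ∃ i, V w = tailSubgroup a i := by
  intro d
  induction d with
  | zero =>
    intro w hw _
    obtain rfl : w = c + 1 := by omega
    exact ⟨n, by rw [hT.bot, tail_eq_bot a n le_rfl]⟩
  | succ d ih =>
    intro w hw hw1
    obtain ⟨j, hj⟩ := ih (w + 1) (by omega) (by omega)
    have hex : ∃ i, tailSubgroup a i ≤ V w := ⟨j, by rw [← hj]; exact hT.anti (Nat.le_succ w)⟩
    classical
    obtain ⟨i, hi, hmin⟩ : ∃ i, tailSubgroup a i ≤ V w ∧ ∀ i' < i, ¬ tailSubgroup a i' ≤ V w :=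
      ⟨Nat.find hex, Nat.find_spec hex, fun i' hi' => Nat.find_min hex hi'⟩
    refine ⟨i, le_antisymm ?_ hi⟩
    cases i with
    | zero => rw [h.top]; exact le_top
    | succ i =>
      have hji : tailSubgroup a j ≤ tailSubgroup a (i + 1) := by
        apply tail_antitone a
        by_contra hlt
        push Not at hlt
        exact hmin j hlt (by rw [← hj]; exact hT.anti (Nat.le_succ w))
      obtain ⟨x, hx, hxw⟩ := SetLike.not_le_iff_exists.mp (hmin i (by omega))
      have hN : ∀ g, ⁅x, g⁆ ∈ tailSubgroup a (i + 1) := by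
        intro g
        rw [← commutatorElement_inv]
        exact Subgroup.inv_mem _ (h.comm_mem g hx)
      have hex2 : ∃ v, x ∉ V (v + 1) := ⟨w - 1, by rwa [Nat.sub_add_cancel hw1]⟩
      obtain ⟨v, hv, hvmin⟩ : ∃ v, x ∉ V (v + 1) ∧ ∀ v' < v, ¬ x ∉ V (v' + 1) :=
        ⟨Nat.find hex2, Nat.find_spec hex2, fun i' hi' => Nat.find_min hex2 hi'⟩
      have hv1 : 1 ≤ v := by
        by_contra h0
        have : v = 0 := by omega
        subst this
        exact hv (hT.top_mem x)
      have hxv : x ∈ V v := by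
        have := hvmin (v - 1) (by omega)
        rw [Nat.sub_add_cancel hv1, not_not] at this
        exact this
      have hvw : v + 1 ≤ w := by
        by_contra hlt
        push Not at hlt
        exact hxw (hT.anti (by omega : w ≤ v) hxv)
      rcases Nat.eq_or_lt_of_le hvw with hvw | hvw
      · intro y hy
        rw [← hvw] at hy
        obtain ⟨k, hk, z, hz, z', hz', hyk⟩ := hT.cover v hv1 (by omega) x hxv hv _ hN y hy
        apply h.isolated_zpow (i + 1) hk
        rw [hyk]
        refine Subgroup.mul_mem _ hz (hji ?_)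
        rw [← hj, ← hvw]
        exact hz'
      · exfalso
        obtain ⟨y, hy, hy'⟩ := hT.ne (v + 1) (by omega) (by omega)
        obtain ⟨k, hk, z, hz, z', hz', hyk⟩ := hT.cover v hv1 (by omega) x hxv hv _ hN y hy
        apply hy'
        apply hT.iso (v + 1) (by omega) (by omega) y hy k hk
        rw [hyk]
        exact Subgroup.mul_mem _ (hT.anti (by omega : v + 2 ≤ w) (hi hz)) hz'

lemma Thin.flag' (hT : Thin V c) (h : IsMalcevBasis a) {w : ℕ} (h1 : 1 ≤ w) (h2 : w ≤ c + 1) :
    ∃ i, V w = tailSubgroup a i :=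
  hT.flag h (c + 1 - w) w (by omega) h1

/-- the weight of a basis element -/
lemma Thin.exists_weight (hT : Thin V c) (h : IsMalcevBasis a) (l : Fin n) :
    ∃ v, 1 ≤ v ∧ v ≤ c ∧ tailSubgroup a (l : ℕ) ≤ V v ∧ V (v + 1) ≤ tailSubgroup a ((l : ℕ) + 1) := by
  classical
  have hne : tailSubgroup a (l : ℕ) ≠ ⊥ := by
    intro h0
    have := h.le_of_tail_eq_bot h0
    have := l.isLt
    omega
  have hex : ∃ v, ¬ tailSubgroup a (l : ℕ) ≤ V (v + 1) := ⟨c, by
    rw [hT.bot, le_bot_iff]; exact hne⟩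
  obtain ⟨v, hv, hvmin⟩ : ∃ v, ¬ tailSubgroup a (l : ℕ) ≤ V (v + 1) ∧
      ∀ v' < v, ¬ ¬ tailSubgroup a (l : ℕ) ≤ V (v' + 1) :=
    ⟨Nat.find hex, Nat.find_spec hex, fun i' hi' => Nat.find_min hex hi'⟩
  have hv1 : 1 ≤ v := by
    by_contra h0
    have : v = 0 := by omega
    subst this
    exact hv (by rw [zero_add, hT.one]; exact le_top)
  have hvc : v ≤ c := by
    by_contra hlt
    push Not at hlt
    have := hvmin c hlt
    rw [not_not, hT.bot, le_bot_iff] at this
    exact hne this
  have hKv : tailSubgroup a (l : ℕ) ≤ V v := by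
    have := hvmin (v - 1) (by omega)
    rw [Nat.sub_add_cancel hv1, not_not] at this
    exact this
  obtain ⟨i, hi⟩ := hT.flag' h (w := v + 1) (by omega) (by omega)
  refine ⟨v, hv1, hvc, hKv, ?_⟩
  rw [hi]
  apply tail_antitone a
  by_contra hlt
  push Not at hlt
  apply hv
  rw [hi]
  exact tail_antitone a (by omega)

/-- coordinate functions have bounded weight -/
lemma Thin.wt_coord (hT : Thin V c) (h : IsMalcevBasis a) (j : Fin n) :
    Wt V ⊤ (c + 1) (fun g => ((coord a g j : ℤ) : ℚ)) := by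
  obtain ⟨v, hv1, hvc, hKv, hVK⟩ := hT.exists_weight h j
  have base : Wt V (tailSubgroup a (j : ℕ)) (v + 1) (fun g => ((coord a g j : ℤ) : ℚ)) := by
    apply Wt.succ
    intro u hu g hg hgu
    have hD : ∀ x ∈ tailSubgroup a (j : ℕ),
        D g (fun g => ((coord a g j : ℤ) : ℚ)) x = ((coord a g j : ℤ) : ℚ) := by
      intro x hx
      simp only [D]
      rw [h.coord_mul hx hg]
      push_cast; ring
    by_cases huv : u ≤ v
    · obtain ⟨w, hw⟩ : ∃ w, v + 1 - u = w + 1 := ⟨v - u, by omega⟩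
      rw [hw]
      exact Wt.const hD w
    · apply Wt.of_zero
      intro x hx
      rw [hD x hx]
      have : g ∈ tailSubgroup a ((j : ℕ) + 1) := hVK (hT.anti (by omega) hgu)
      rw [h.coord_eq_zero this j (by omega)]
      simp
  have step : ∀ d l, l + d = (j : ℕ) →
      Wt V (tailSubgroup a l) (v + 1) (fun g => ((coord a g j : ℤ) : ℚ)) := by
    intro d
    induction d with
    | zero =>
      intro l hl
      obtain rfl : l = (j : ℕ) := by omega
      exact base
    | succ d ih =>
      intro l hl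
      have hln : l < n := by have := j.isLt; omega
      obtain ⟨u, hu1, huc, hKu, hVu⟩ := hT.exists_weight h ⟨l, hln⟩
      refine Wt.extend (K' := tailSubgroup a (l + 1)) (a := a ⟨l, hln⟩) (v := u) hT.anti hT.comm
        (tail_antitone_succ a l) (fun g _ => hT.top_mem g) hu1 (mem_tail a l ⟨l, hln⟩ le_rfl)
        (hKu (mem_tail a l ⟨l, hln⟩ le_rfl)) (fun g k hk => (h.normal (l + 1)).conj_mem k hk g)
        (fun g hg => h.exists_decomp ⟨l, hln⟩ hg)
        (fun w hw g _ hgw => hVu (hT.anti hw hgw)) ?_ (ih (l + 1) (by omega))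
      intro y k hk
      rw [h.coord_zpow_mul_of_lt ⟨l, hln⟩ j (by rw [Fin.lt_def]; simp only; omega) y hk]
  have := step j 0 (by omega)
  rw [h.top] at this
  exact this.mono (by omega)

/-- invariance under left multiplication by early basis elements -/
def Q (V : ℕ → Subgroup G) (a : Fin n → G) (j : Fin n) (w : ℕ) (F : G → ℚ) : Prop :=
  ∀ l : Fin n, l < j → V w ≤ tailSubgroup a ((l : ℕ) + 1) → ∀ y : ℤ,
    ∀ k ∈ tailSubgroup a ((l : ℕ) + 1), F (a l ^ y * k) = F k

lemma Q.coord (h : IsMalcevBasis a) (j : Fin n) (w : ℕ) :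
    Q V a j w (fun g => ((coord a g j : ℤ) : ℚ)) := by
  intro l hl _ y k hk
  simp only
  rw [h.coord_zpow_mul_of_lt l j hl y hk]

lemma Q.diff {j : Fin n} {w : ℕ} {F : G → ℚ} (hF : Q V a j w F) {g : G} (hg : g ∈ V w) :
    Q V a j w (D g F) := by
  intro l hl hV y k hk
  simp only [D]
  rw [mul_assoc, hF l hl hV y _ (Subgroup.mul_mem _ hk (hV hg)), hF l hl hV y k hk]

lemma Q.mono {j : Fin n} (hT : Thin V c) {w w' : ℕ} (hw : w ≤ w') {F : G → ℚ}
    (hF : Q V a j w' F) : Q V a j w F := by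
  intro l hl hV y k hk
  exact hF l hl (le_trans (hT.anti hw) hV) y k hk

/-- Rule B -/
lemma Thin.ruleB (hT : Thin V c) (h : IsMalcevBasis a) {j : Fin n} {w : ℕ} (hw : 1 ≤ w)
    (hj : a j ∈ V (w + 1)) (hwc : w ≤ c) {F : G → ℚ} (hF : Wt V ⊤ (w + 1) F)
    (hQ : Q V a j (w + 1) F) {g : G} (hg : g ∈ V w) : D g F 1 = 0 := by
  obtain ⟨i, hi⟩ := hT.flag' h hw (by omega)
  obtain ⟨i', hi'⟩ := hT.flag' h (w := w + 1) (by omega) (by omega)
  have hi'j : i' ≤ (j : ℕ) := by
    by_contra hlt
    push Not at hlt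
    rw [hi'] at hj
    have := h.coord_eq_zero hj j hlt
    rw [h.coord_self] at this
    exact one_ne_zero this
  have main : ∀ d l, l + d = i' → i ≤ l → ∀ g ∈ tailSubgroup a l, D g F 1 = 0 := by
    intro d
    induction d with
    | zero =>
      intro l hl _ g hg
      obtain rfl : l = i' := by omega
      rw [← hi'] at hg
      have := hF.diff (u := w + 1) (by omega) (Subgroup.mem_top g) hg
      rw [Nat.sub_self] at this
      exact this.eq_zero 1 (Subgroup.mem_top _)
    | succ d ih =>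
      intro l hl hil g hg
      have hln : l < n := by have := j.isLt; omega
      obtain ⟨y, k, hk, rfl⟩ := h.exists_decomp ⟨l, hln⟩ hg
      have hVl : V (w + 1) ≤ tailSubgroup a (l + 1) := by
        rw [hi']; exact tail_antitone a (by omega)
      have hkw : k ∈ V w := by
        rw [hi]; exact tail_antitone a (by simp only; omega) hk
      have h1 := hF.diff hw (Subgroup.mem_top k) hkw
      have e1 : w + 1 - w = 1 := by omega
      rw [e1] at h1
      have h2 := h1.eq_of_one (fun g _ => hT.top_mem g) (Subgroup.mem_top (a ⟨l, hln⟩ ^ y))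
      have h3 := ih (l + 1) (by omega) (by omega) k hk
      have h4 := hQ ⟨l, hln⟩ (by rw [Fin.lt_def]; simp only; omega) hVl y 1 (Subgroup.one_mem _)
      rw [h3] at h2
      simp only [D, mul_one, one_mul] at h2 h4 ⊢
      linarith
  by_cases hii : i ≤ i'
  · exact main (i' - i) i (by omega) le_rfl g (by rwa [← hi])
  · -- degenerate case
    have : g ∈ V (w + 1) := by
      rw [hi']; rw [hi] at hg; exact tail_antitone a (by omega) hg
    have := hF.diff (u := w + 1) (by omega) (Subgroup.mem_top g) this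
    rw [Nat.sub_self] at this
    exact this.eq_zero 1 (Subgroup.mem_top _)

/-! ### Evaluation -/

/-- special elements in a thin group -/
structure Special (V : ℕ → Subgroup G) (e h : ℕ → G) : Prop where
  e_mem : ∀ b, e b ∈ V (2 * b + 1)
  h_mem : ∀ p, 1 ≤ p → h p ∈ V (2 * p)
  h_comm : ∀ p q, h p * h q = h q * h p
  rel : ∀ b p, 1 ≤ p → ∃ z ∈ V (2 * b + 2 * p + 2), h p * e b = e b * h p * (e (b + p) ^ 2 * z)

/-- iterated differences along the elements `h p`, `p ∈ P` -/
def DL (h : ℕ → G) (P : List ℕ) (f : G → ℚ) : G → ℚ := P.foldr (fun p F => D (h p) F) f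

@[simp] lemma DL_nil (h : ℕ → G) (f : G → ℚ) : DL h [] f = f := rfl
@[simp] lemma DL_cons (h : ℕ → G) (p : ℕ) (P : List ℕ) (f : G → ℚ) :
    DL h (p :: P) f = D (h p) (DL h P f) := rfl

lemma DL_append (h : ℕ → G) (P P' : List ℕ) (f : G → ℚ) :
    DL h (P ++ P') f = DL h P (DL h P' f) := by
  unfold DL
  rw [List.foldr_append]

lemma DL_perm {e h : ℕ → G} (hS : Special V e h) {P P' : List ℕ} (hp : P.Perm P') (f : G → ℚ) :
    DL h P f = DL h P' f := by
  induction hp with
  | nil => rfl
  | cons x _ ih => simp only [DL_cons, ih]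
  | swap x y l =>
    simp only [DL_cons]
    funext z
    simp only [D]
    rw [mul_assoc, mul_assoc, hS.h_comm]
    ring
  | trans _ _ ih1 ih2 => rw [ih1, ih2]

/-- the legitimacy condition: each part is at most `b` plus the sum of the earlier parts -/
def Legit : ℕ → List ℕ → Prop
  | _, [] => True
  | b, p :: P => p ≤ b ∧ Legit (b + p) P

lemma wt_DL {e h : ℕ → G} (hS : Special V e h) :
    ∀ (P : List ℕ) (w : ℕ) (f : G → ℚ), (∀ p ∈ P, 1 ≤ p) → Wt V ⊤ w f →
      Wt V ⊤ (w - 2 * P.sum) (DL h P f) := by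
  intro P
  induction P with
  | nil => intro w f _ hf; simpa using hf
  | cons p P ih =>
    intro w f hP hf
    have hp : 1 ≤ p := hP p (by simp)
    have h1 := ih w f (fun q hq => hP q (by simp [hq])) hf
    have h2 := h1.diff (u := 2 * p) (by omega) (Subgroup.mem_top _) (hS.h_mem p hp)
    rw [DL_cons, List.sum_cons]
    have : w - 2 * P.sum - 2 * p = w - 2 * (p + P.sum) := by omega
    rwa [this] at h2

lemma Q_DL (hT : Thin V c) {e h : ℕ → G} (hS : Special V e h) {j : Fin n} {w : ℕ} :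
    ∀ (P : List ℕ) (f : G → ℚ), (∀ p ∈ P, 1 ≤ p ∧ w ≤ 2 * p) → Q V a j w f →
      Q V a j w (DL h P f) := by
  intro P
  induction P with
  | nil => intro f _ hf; simpa using hf
  | cons p P ih =>
    intro f hP hf
    have hp := hP p (by simp)
    have h1 := ih f (fun q hq => hP q (by simp [hq])) hf
    rw [DL_cons]
    exact h1.diff (hT.anti hp.2 (hS.h_mem p hp.1))

/-- vanishing when all parts are larger than `b` -/
lemma eval_vanish (hT : Thin V c) (h : IsMalcevBasis a) {e h' : ℕ → G} (hS : Special V e h')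
    {m : ℕ} (hc : c = 2 * m + 1) {j : Fin n} (hj : a j ∈ V c) {b : ℕ} {P : List ℕ}
    (hP : P ≠ []) (hPb : ∀ p ∈ P, b < p) (hsum : b + P.sum = m) :
    D (e b) (DL h' P (fun g => ((coord a g j : ℤ) : ℚ))) 1 = 0 := by
  have hbm : b < m := by
    cases P with
    | nil => exact absurd rfl hP
    | cons p P =>
      have := hPb p (by simp)
      rw [List.sum_cons] at hsum
      omega
  apply hT.ruleB h (w := 2 * b + 1) (j := j) (by omega) (hT.anti (by omega) hj) (by omega) ?_ ?_
    (hS.e_mem b)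
  · have := wt_DL hS P (c + 1) _ (fun p hp => by have := hPb p hp; omega) (hT.wt_coord h j)
    apply this.mono
    omega
  · apply Q_DL hT hS P _ _ (Q.coord h j _)
    intro p hp
    have := hPb p hp
    omega

/-- absorption of the smallest part -/
lemma eval_absorb (hT : Thin V c) (h : IsMalcevBasis a) {e h' : ℕ → G} (hS : Special V e h')
    {m : ℕ} (hc : c = 2 * m + 1) {j : Fin n} (hj : a j ∈ V c) {b p : ℕ} {P : List ℕ}
    (hp1 : 1 ≤ p) (hpb : p ≤ b) (hPp : ∀ q ∈ P, p < q) (hsum : b + p + P.sum = m) :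
    D (e b) (DL h' (p :: P) (fun g => ((coord a g j : ℤ) : ℚ))) 1 =
      -2 * D (e (b + p)) (DL h' P (fun g => ((coord a g j : ℤ) : ℚ))) 1 := by
  have hf : Wt V ⊤ (2 * b + 2 * p + 2) (DL h' P (fun g => ((coord a g j : ℤ) : ℚ))) := by
    have := wt_DL hS P (c + 1) _ (fun q hq => by have := hPp q hq; omega) (hT.wt_coord h j)
    apply this.mono
    omega
  have hQf : Q V a j (2 * p + 1) (DL h' P (fun g => ((coord a g j : ℤ) : ℚ))) := by
    apply Q_DL hT hS P _ _ (Q.coord h j _)
    intro q hq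
    have := hPp q hq
    omega
  rw [DL_cons]
  generalize DL h' P (fun g => ((coord a g j : ℤ) : ℚ)) = f at hf hQf ⊢
  -- first: swapped term vanishes
  have h1 : D (h' p) (D (e b) f) 1 = 0 := by
    apply hT.ruleB h (w := 2 * p) (j := j) (by omega) (hT.anti (by omega) hj) (by omega) ?_ ?_
      (hS.h_mem p hp1)
    · have := hf.diff (u := 2 * b + 1) (by omega) (Subgroup.mem_top _) (hS.e_mem b)
      apply this.mono
      omega
    · exact hQf.diff (hT.anti (by omega) (hS.e_mem b))
  -- the commutator term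
  obtain ⟨z, hz, hrel⟩ := hS.rel b p hp1
  have heV : e (b + p) ∈ V (2 * b + 2 * p + 1) := by
    have := hS.e_mem (b + p)
    have e1 : 2 * (b + p) + 1 = 2 * b + 2 * p + 1 := by ring
    rwa [e1] at this
  have hzf : ∀ x, D z f x = 0 := by
    intro x
    have := hf.diff (u := 2 * b + 2 * p + 2) (by omega) (Subgroup.mem_top _) hz
    rw [Nat.sub_self] at this
    exact this.eq_zero x (Subgroup.mem_top _)
  have hef : ∀ x, D (e (b + p)) f x = D (e (b + p)) f 1 := by
    intro x
    have := hf.diff (u := 2 * b + 2 * p + 1) (by omega) (Subgroup.mem_top _) heV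
    have e1 : 2 * b + 2 * p + 2 - (2 * b + 2 * p + 1) = 1 := by omega
    rw [e1] at this
    exact this.eq_of_one (fun g _ => hT.top_mem g) (Subgroup.mem_top x)
  have key : f (h' p * e b) - f (e b * h' p) = 2 * D (e (b + p)) f 1 := by
    rw [hrel]
    have s1 := hzf (e b * h' p * e (b + p) ^ 2)
    have s2 := hef (e b * h' p * e (b + p))
    have s3 := hef (e b * h' p)
    simp only [D, one_mul, mul_assoc, pow_two] at s1 s2 s3 ⊢
    linarith
  simp only [D, one_mul] at h1 key ⊢
  linarith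

/-- the evaluation at a sorted list is nonzero iff the list is legitimate -/
lemma eval_ne_zero_iff (hT : Thin V c) (h : IsMalcevBasis a) {e h' : ℕ → G} (hS : Special V e h')
    {m : ℕ} (hc : c = 2 * m + 1) {j : Fin n} (hj : a j ∈ V c)
    (hem : coord a (e m) j ≠ 0) : ∀ (P : List ℕ) (b : ℕ), (∀ p ∈ P, 1 ≤ p) →
      P.Pairwise (· < ·) → b + P.sum = m →
      (D (e b) (DL h' P (fun g => ((coord a g j : ℤ) : ℚ))) 1 ≠ 0 ↔ Legit b P) := by
  intro P
  induction P with
  | nil =>
    intro b _ _ hsum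
    simp only [List.sum_nil, add_zero] at hsum
    subst hsum
    simp only [DL_nil, D, one_mul, Legit, iff_true]
    rw [h.coord_one]
    simpa using hem
  | cons p P ih =>
    intro b hP hs hsum
    rw [List.pairwise_cons] at hs
    rw [List.sum_cons] at hsum
    have hp1 : 1 ≤ p := hP p (by simp)
    by_cases hpb : p ≤ b
    · rw [eval_absorb hT h hS hc hj hp1 hpb hs.1 (by omega)]
      rw [mul_ne_zero_iff]
      simp only [Legit]
      rw [ih (b + p) (fun q hq => hP q (by simp [hq])) hs.2 (by omega)]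
      constructor
      · rintro ⟨_, h2⟩; exact ⟨hpb, h2⟩
      · rintro ⟨_, h2⟩; exact ⟨by norm_num, h2⟩
    · push Not at hpb
      rw [eval_vanish hT h hS hc hj (by simp) ?_ (by rw [List.sum_cons]; omega)]
      · simp only [ne_eq, not_true_eq_false, false_iff, Legit]
        intro hle
        omega
      · intro q hq
        rw [List.mem_cons] at hq
        rcases hq with rfl | hq
        · exact hpb
        · exact lt_trans hpb (hs.1 q hq)

end Pool.Agent.Nickel
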