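import Pool.Agent.Work.MP_41a35f_al.Malcev

set_option autoImplicit false

/-!
# Functions of bounded weight with respect to a filtration
-/

open scoped commutatorElement

namespace Pool.Agent.Nickel

variable {G : Type} [Group G]

/-- The difference operator `(D g f) x = f (x * g) - f x`. -/
def D (g : G) (f : G → ℚ) : G → ℚ := fun x => f (x * g) - f x

/-- `Wt V K w f`: on the subgroup `K`, the function `f` has weight less than `w` with respect to
the filtration `V`. -/
inductive Wt (V : ℕ → Subgroup G) (K : Subgroup G) : ℕ → (G → ℚ) → Prop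
  | zero (f : G → ℚ) : (∀ x ∈ K, f x = 0) → Wt V K 0 f
  | succ (w : ℕ) (f : G → ℚ) :
      (∀ u, 1 ≤ u → ∀ g ∈ K, g ∈ V u → Wt V K (w + 1 - u) (D g f)) → Wt V K (w + 1) f

variable {V : ℕ → Subgroup G} {K : Subgroup G}

lemma Wt.eq_zero {f : G → ℚ} (h : Wt V K 0 f) : ∀ x ∈ K, f x = 0 := by
  cases h with
  | zero _ h => exact h

lemma Wt.diff {w : ℕ} {f : G → ℚ} (h : Wt V K w f) {u : ℕ} (hu : 1 ≤ u) {g : G} (hg : g ∈ K)
    (hgu : g ∈ V u) : Wt V K (w - u) (D g f) := by
  cases h with
  | zero _ h =>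
    rw [Nat.zero_sub]
    apply Wt.zero
    intro x hx
    simp only [D]
    rw [h _ (K.mul_mem hx hg), h _ hx, sub_zero]
  | succ w _ h => exact h u hu g hg hgu

lemma Wt.of_zero (w : ℕ) : ∀ {f : G → ℚ}, (∀ x ∈ K, f x = 0) → Wt V K w f := by
  induction w using Nat.strong_induction_on with
  | _ w ih =>
    intro f hf
    cases w with
    | zero => exact Wt.zero _ hf
    | succ w =>
      apply Wt.succ
      intro u hu g hg _
      apply ih _ (by omega)
      intro x hx
      simp only [D]
      rw [hf _ (K.mul_mem hx hg), hf _ hx, sub_zero]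

lemma Wt.congr {w : ℕ} : ∀ {f f' : G → ℚ}, Wt V K w f → (∀ x ∈ K, f x = f' x) → Wt V K w f' := by
  induction w using Nat.strong_induction_on with
  | _ w ih =>
    intro f f' hf hff
    cases w with
    | zero =>
      apply Wt.zero
      intro x hx
      rw [← hff x hx]
      exact hf.eq_zero x hx
    | succ w =>
      apply Wt.succ
      intro u hu g hg hgu
      apply ih _ (by omega) (hf.diff hu hg hgu)
      intro x hx
      simp only [D]
      rw [hff _ (K.mul_mem hx hg), hff _ hx]

lemma Wt.add {w : ℕ} : ∀ {f f' : G → ℚ}, Wt V K w f → Wt V K w f' →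
    Wt V K w (fun x => f x + f' x) := by
  induction w using Nat.strong_induction_on with
  | _ w ih =>
    intro f f' hf hf'
    cases w with
    | zero =>
      apply Wt.zero
      intro x hx
      rw [hf.eq_zero x hx, hf'.eq_zero x hx, add_zero]
    | succ w =>
      apply Wt.succ
      intro u hu g hg hgu
      apply (ih _ (by omega) (hf.diff hu hg hgu) (hf'.diff hu hg hgu)).congr
      intro x hx
      simp only [D]
      ring

lemma Wt.mono {w : ℕ} : ∀ {w' : ℕ} {f : G → ℚ}, Wt V K w f → w ≤ w' → Wt V K w' f := by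
  induction w using Nat.strong_induction_on with
  | _ w ih =>
    intro w' f hf hw
    cases w with
    | zero => exact Wt.of_zero _ hf.eq_zero
    | succ w =>
      cases w' with
      | zero => omega
      | succ w' =>
        apply Wt.succ
        intro u hu g hg hgu
        exact ih _ (by omega) (hf.diff hu hg hgu) (by omega)

lemma Wt.translate {w : ℕ} {f : G → ℚ} (h : Wt V K w f) (hV : ∀ g ∈ K, g ∈ V 1) {g : G}
    (hg : g ∈ K) : Wt V K w (fun x => f (x * g)) := by
  have h1 := (h.diff (le_refl 1) hg (hV g hg)).mono (Nat.sub_le w 1)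
  apply (h.add h1).congr
  intro x _
  simp only [D]
  ring

lemma Wt.const {f : G → ℚ} {q : ℚ} (h : ∀ x ∈ K, f x = q) (w : ℕ) : Wt V K (w + 1) f := by
  apply Wt.succ
  intro u _ g hg _
  apply Wt.of_zero
  intro x hx
  simp only [D]
  rw [h _ (K.mul_mem hx hg), h _ hx, sub_self]

lemma Wt.eq_of_one {f : G → ℚ} (h : Wt V K 1 f) (hV : ∀ g ∈ K, g ∈ V 1) {x : G} (hx : x ∈ K) :
    f x = f 1 := by
  have h1 := (h.diff (le_refl 1) hx (hV x hx)).eq_zero 1 K.one_mem
  simp only [D, one_mul] at h1
  linarith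

/-- conjugation acts unipotently -/
lemma Wt.conj (hanti : Antitone V)
    (hcomm : ∀ (u v : ℕ) (g h : G), g ∈ V u → h ∈ V v → ⁅g, h⁆ ∈ V (u + v))
    (hV : ∀ g ∈ K, g ∈ V 1) {v : ℕ} {b : G} (hb : b ∈ V v)
    (hK : ∀ k ∈ K, b⁻¹ * k * b ∈ K) {w : ℕ} :
    ∀ {f : G → ℚ}, Wt V K w f → Wt V K (w - v) (fun x => f (b⁻¹ * x * b) - f x) := by
  -- the commutator
  have hz : ∀ k : G, b⁻¹ * k * b = k * ⁅k⁻¹, b⁻¹⁆ := by
    intro k
    rw [commutatorElement_def]; group
  have hzK : ∀ k ∈ K, ⁅k⁻¹, b⁻¹⁆ ∈ K := by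
    intro k hk
    have : ⁅k⁻¹, b⁻¹⁆ = k⁻¹ * (b⁻¹ * k * b) := by rw [hz]; group
    rw [this]
    exact K.mul_mem (K.inv_mem hk) (hK k hk)
  have hzV : ∀ (u : ℕ) (k : G), k ∈ V u → ⁅k⁻¹, b⁻¹⁆ ∈ V (u + v) := fun u k hk =>
    hcomm u v _ _ ((V u).inv_mem hk) ((V v).inv_mem hb)
  induction w using Nat.strong_induction_on with
  | _ w ih =>
    intro f hf
    by_cases hwv : w ≤ v
    · have h0 : w - v = 0 := by omega
      rw [h0]
      apply Wt.zero
      intro x hx
      have h1 := hf.diff (u := 1 + v) (by omega) (hzK x hx) (hzV 1 x (hV x hx))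
      have h2 : w - (1 + v) = 0 := by omega
      rw [h2] at h1
      have h3 := h1.eq_zero x hx
      simp only [D] at h3
      rw [hz x]
      exact h3
    · obtain ⟨w', hw'⟩ : ∃ w', w - v = w' + 1 := ⟨w - v - 1, by omega⟩
      rw [hw']
      apply Wt.succ
      intro u hu h hh hhu
      have hh' : b⁻¹ * h * b ∈ K := hK h hh
      have hh'u : b⁻¹ * h * b ∈ V u := by
        rw [hz]
        exact (V u).mul_mem hhu (hanti (by omega) (hzV u h hhu))
      have hA := ih (w - u) (by omega) (hf.diff hu hh' hh'u)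
      have hB := (hf.diff (u := u + v) (by omega) (hzK h hh) (hzV u h hhu)).translate hV hh
      have e1 : w - u - v = w' + 1 - u := by omega
      have e2 : w - (u + v) = w' + 1 - u := by omega
      rw [e1] at hA
      rw [e2] at hB
      apply (hA.add hB).congr
      intro x _
      simp only [D]
      have e3 : b⁻¹ * x * b * (b⁻¹ * h * b) = b⁻¹ * (x * h) * b := by group
      have e4 : x * h * ⁅h⁻¹, b⁻¹⁆ = x * (b⁻¹ * h * b) := by rw [hz]; group
      rw [e3, e4]
      ring

/-- extension of a function from a normal subgroup by a cyclic group -/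
lemma Wt.extend (hanti : Antitone V)
    (hcomm : ∀ (u v : ℕ) (g h : G), g ∈ V u → h ∈ V v → ⁅g, h⁆ ∈ V (u + v))
    {K' : Subgroup G} (hK'K : K' ≤ K) (hV : ∀ g ∈ K, g ∈ V 1) {v : ℕ} (hv : 1 ≤ v) {a : G}
    (haK : a ∈ K) (ha : a ∈ V v) (hN : ∀ (g : G), ∀ k ∈ K', g * k * g⁻¹ ∈ K')
    (hdec : ∀ g ∈ K, ∃ (y : ℤ) (k : G), k ∈ K' ∧ g = a ^ y * k)
    (hdeep : ∀ u, v < u → ∀ g ∈ K, g ∈ V u → g ∈ K') {w : ℕ} :
    ∀ {f : G → ℚ}, (∀ (y : ℤ), ∀ k ∈ K', f (a ^ y * k) = f k) → Wt V K' w f → Wt V K w f := by
  induction w using Nat.strong_induction_on with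
  | _ w ih =>
    intro f hf hw
    cases w with
    | zero =>
      apply Wt.zero
      intro x hx
      obtain ⟨y, k, hk, rfl⟩ := hdec x hx
      rw [hf y k hk]
      exact hw.eq_zero k hk
    | succ w =>
      apply Wt.succ
      intro u hu g hg hgu
      have claim : ∀ k ∈ K', k ∈ V u → Wt V K (w + 1 - u) (D k f) := by
        intro k hk hku
        apply ih _ (by omega)
        · intro y k' hk'
          simp only [D]
          rw [mul_assoc, hf y _ (K'.mul_mem hk' hk), hf y _ hk']
        · exact hw.diff hu hk hku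
      by_cases huv : v < u
      · exact claim g (hdeep u huv g hg hgu) hgu
      · push Not at huv
        obtain ⟨y, k, hk, rfl⟩ := hdec g hg
        have hau : a ^ y ∈ V u := (V u).zpow_mem (hanti huv ha) y
        have hku : k ∈ V u := by
          have : k = (a ^ y)⁻¹ * (a ^ y * k) := by group
          rw [this]
          exact (V u).mul_mem ((V u).inv_mem hau) hgu
        have h1 := (claim k hk hku).translate hV (K.zpow_mem haK y)
        have h2 : Wt V K (w + 1 - v) (D (a ^ y) f) := by
          apply ih _ (by omega)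
          · intro z k' hk'
            simp only [D]
            have e1 : a ^ z * k' * a ^ y = a ^ (z + y) * (a ^ (-y) * k' * (a ^ (-y))⁻¹) := by group
            have e2 : k' * a ^ y = a ^ y * (a ^ (-y) * k' * (a ^ (-y))⁻¹) := by group
            rw [e1, e2, hf _ _ (hN _ _ hk'), hf _ _ (hN _ _ hk'), hf _ _ hk']
          · have hc := Wt.conj (K := K') hanti hcomm (fun g hg => hV g (hK'K hg))
              (v := v) (b := a ^ y) ((V v).zpow_mem ha y) (fun k hk => by
                have := hN (a ^ y)⁻¹ k hk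
                simpa using this) hw
            apply hc.congr
            intro x hx
            simp only [D]
            have e2 : x * a ^ y = a ^ y * ((a ^ y)⁻¹ * x * a ^ y) := by group
            have hx' : (a ^ y)⁻¹ * x * a ^ y ∈ K' := by
              have := hN (a ^ y)⁻¹ x hx
              simpa using this
            rw [e2, hf y _ hx']
        apply (h1.add (h2.mono (by omega : w + 1 - v ≤ w + 1 - u))).congr
        intro x _
        simp only [D]
        rw [mul_assoc]
        ring

end Pool.Agent.Nickel
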